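import Mathlib
import Pool.Agent.Helper741.GroupVN.Basic

set_option autoImplicit false

/-!
# Cloning groups built from an involution, and their group von Neumann algebras: definitions
-/

open scoped ENNReal lp InnerProductSpace
open Pool.Agent.Helper741.GroupVN Filter

namespace Pool.Agent.Q175.CG

/-- finite rooted binary trees -/
inductive BT : Type
  | leaf : BT
  | node : BT → BT → BT

/-- the number of leaves -/
def BT.size : BT → ℕ
  | .leaf => 1
  | .node l r => l.size + r.size

/-- attach a caret at the leaf number `k`; the leaves are numbered from left to right, starting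
with `0` -/
def BT.caret : BT → ℕ → BT
  | .leaf, _ => .node .leaf .leaf
  | .node l r, k => if k < l.size then .node (l.caret k) r else .node l (r.caret (k - l.size))

/-- the cloning map: `(g_0, …, g_k, …) ↦ (g_0, …, g_k, φ(g_k), g_{k+1}, …)` -/
def clone {G : Type} (φ : G → G) : ℕ → List G → List G
  | _, [] => []
  | 0, a :: t => a :: φ a :: t
  | k + 1, a :: t => a :: clone φ k t

/-- triples `(T_-, g, T_+)`: two trees with the same number `n` of leaves and an element of `G^n` -/
structure Triple (G : Type) : Type where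
  neg : BT
  lab : List G
  pos : BT
  hneg : lab.length = neg.size
  hpos : lab.length = pos.size

/-- the triples with `g` in `G^n` (`ps = false`), resp. in `1 × G^(n-1)` (`ps = true`) -/
def Adm {G : Type} [Group G] (ps : Bool) (t : Triple G) : Prop :=
  ps = true → t.lab.head? = some 1

/-- elementary expansion: a caret is attached at the `k`-th leaf of both trees, and the label `g`
is replaced with `κ_k(g)` -/
def Step {G : Type} (φ : G → G) (s t : Triple G) : Prop :=
  ∃ k < s.lab.length, t.neg = s.neg.caret k ∧ t.lab = clone φ k s.lab ∧ t.pos = s.pos.caret k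

/-- `Γ` is the group of the classes of triples, `cls` maps a triple to its class: two triples have
the same class iff they are equivalent for the equivalence relation generated by the elementary
expansions, and `[T_-, g, T_+] [T_+, h, U_+] = [T_-, g h, U_+]`. The case `ps = false` is the group
`𝒯(∏^*(G))`, and `ps = true` is the group `𝒯(Ψ^*(G))`. -/
structure IsCloningGroup {G : Type} [Group G] (φ : G → G) (ps : Bool) (Γ : Type) [Group Γ]
    (cls : {t : Triple G // Adm ps t} → Γ) : Prop where
  surj : Function.Surjective cls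
  eq_iff : ∀ s t, cls s = cls t ↔ Relation.EqvGen (fun s t => Step φ s.1 t.1) s t
  mul : ∀ s t u, s.1.pos = t.1.neg → u.1.neg = s.1.neg → u.1.pos = t.1.pos →
    u.1.lab = List.zipWith (· * ·) s.1.lab t.1.lab → cls s * cls t = cls u

/-- bounded operators on `ℓ²(Γ)` -/
abbrev Op (Γ : Type) := L2 Γ →L[ℂ] L2 Γ

open scoped Classical in
/-- the vector `δ_1` of `ℓ²(Γ)` -/
noncomputable def dirac (Γ : Type) [Group Γ] : L2 Γ := delta (1 : Γ)

/-- the canonical trace `τ(x) = ⟨δ_1, x δ_1⟩` -/
noncomputable def tau {Γ : Type} [Group Γ] (x : Op Γ) : ℂ := ⟪dirac Γ, x (dirac Γ)⟫_ℂ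

/-- the 2-norm `‖x‖₂ = τ(x^* x)^(1/2) = ‖x δ_1‖` -/
noncomputable def nrm2 {Γ : Type} [Group Γ] (x : Op Γ) : ℝ := ‖x (dirac Γ)‖

/-- the commutator `x y - y x` -/
noncomputable def cmt {Γ : Type} (x y : Op Γ) : Op Γ := x * y - y * x

/-- unitary operators -/
def IsUn {Γ : Type} (x : Op Γ) : Prop := x ∈ unitary (Op Γ)

/-- the group von Neumann algebra `L(Γ)`: the bicommutant of the left regular representation -/
def vN (Γ : Type) [Group Γ] : Set (Op Γ) :=
  Set.centralizer (Set.centralizer (Set.range (lam : Γ → Op Γ)))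

/-- `u` is a central sequence of unitaries of trace zero in `L(Γ)` -/
def IsCentralUnitary (Γ : Type) [Group Γ] (u : ℕ → Op Γ) : Prop :=
  (∀ j, u j ∈ vN Γ ∧ IsUn (u j) ∧ tau (u j) = 0) ∧
  ∀ x ∈ vN Γ, Tendsto (fun j => nrm2 (cmt (u j) x)) atTop (nhds 0)

/-- `L(Γ)` has property Gamma: there are unitaries `u_j` in `L(Γ)` with `τ(u_j) = 0` and
`‖u_j x - x u_j‖₂ → 0` for all `x` in `L(Γ)` -/
def HasGamma (Γ : Type) [Group Γ] : Prop :=
  ∃ u : ℕ → Op Γ, IsCentralUnitary Γ u

/-- `L(Γ)` has two central sequences which do not commute asymptotically. By McDuff's theorem (1970)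
this is equivalent, for a II₁ factor `L(Γ)` with `Γ` countable, to `L(Γ) ≅ L(Γ) ⊗ R`. -/
def HasNoncommutingCentralSequences (Γ : Type) [Group Γ] : Prop :=
  ∃ u v : ℕ → Op Γ, IsCentralUnitary Γ u ∧ IsCentralUnitary Γ v ∧
    ∀ j, nrm2 (cmt (u j) (v j)) = Real.sqrt 2

end Pool.Agent.Q175.CG
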