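import Pool.Agent.Q175.CG.Act

set_option autoImplicit false
set_option linter.unusedSectionVars false

/-!
# Elements of the cloning groups supported in small cones
-/

namespace Pool.Agent.Q175.CG

variable {G : Type} [Group G]

/-- the tree map of two trees -/
def tm (A B : BT) (x : CS) : CS := app (addr A (split B x).1) (split B x).2

theorem tm_app {A B : BT} {j : ℕ} (hj : j < B.size) (z : CS) :
    tm A B (app (addr B j) z) = app (addr A j) z := by
  unfold tm
  rw [split_app _ _ _ hj]

/-- the trees have the same size, and leaves with the same number have the same parity -/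
def PP (A B : BT) : Prop := A.size = B.size ∧ ∀ j < B.size, par (addr A j) = par (addr B j)

theorem PP.refl (A : BT) : PP A A := ⟨rfl, fun _ _ => rfl⟩

theorem par_cons (b : Bool) (v : List Bool) : par (b :: v) = xor b (par v) := rfl

theorem PP.node {A A' B B' : BT} (h : PP A B) (h' : PP A' B') : PP (.node A A') (.node B B') := by
  obtain ⟨h1, h2⟩ := h
  obtain ⟨h1', h2'⟩ := h'
  refine ⟨by simp only [BT.size, h1, h1'], fun j hj => ?_⟩
  simp only [BT.size] at hj
  simp only [addr, h1]
  by_cases hjl : j < B.size
  · rw [if_pos hjl, if_pos hjl, par_cons, par_cons, h2 j hjl]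
  · rw [if_neg hjl, if_neg hjl, par_cons, par_cons, h2' _ (by omega)]

theorem tm_left {A A' B B' : BT} (h : A.size = B.size) (x : CS) :
    tm (.node A A') (.node B B') (cns false x) = cns false (tm A B x) := by
  have hlt := (app_split B x).1
  have e : split (.node B B') (cns false x) = split B x := by
    simp only [split, cns, tl_cns, if_true]
  unfold tm
  rw [e]
  simp only [addr]
  rw [if_pos (by omega)]
  rfl

theorem tm_right {A A' B B' : BT} (h : A.size = B.size) (x : CS) :
    tm (.node A A') (.node B B') (cns true x) = cns true (tm A' B' x) := by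
  have e : split (.node B B') (cns true x) = (B.size + (split B' x).1, (split B' x).2) := by
    have h0 : ¬ cns true x 0 = false := by simp [cns]
    simp only [split]
    rw [if_neg h0]
    rfl
  unfold tm
  rw [e]
  simp only [addr]
  rw [if_neg (by omega), h, Nat.add_sub_cancel_left]
  rfl

theorem tm_leaf (x : CS) : tm .leaf .leaf x = x := rfl

/-- the tree with `A` at the address `0^i 1` -/
def spine : ℕ → BT → BT
  | 0, A => .node .leaf A
  | i + 1, A => .node (spine i A) .leaf

/-- the cone `0^i 1` -/
def IN : ℕ → CS → CS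
  | 0, z => cns true z
  | i + 1, z => cns false (IN i z)

theorem PP.spine {A B : BT} (h : PP A B) : ∀ i, PP (spine i A) (spine i B)
  | 0 => (PP.refl _).node h
  | i + 1 => (PP.spine h i).node (PP.refl _)

theorem tm_IN {A B : BT} (h : PP A B) : ∀ (i : ℕ) (z : CS),
    tm (spine i A) (spine i B) (IN i z) = IN i (tm A B z)
  | 0, z => tm_right rfl z
  | i + 1, z => by
    simp only [spine, IN]
    rw [tm_left (h.spine i).1, tm_IN h i z]

theorem tm_out {A B : BT} (h : PP A B) : ∀ (i : ℕ) (x : CS), (∀ z, x ≠ IN i z) →
    tm (spine i A) (spine i B) x = x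
  | 0, x, hx => by
    rw [← cns_tl x] at hx ⊢
    cases h0 : x 0 with
    | false => exact tm_left rfl _
    | true =>
      rw [h0] at hx
      exact absurd rfl (hx (tl x))
  | i + 1, x, hx => by
    rw [← cns_tl x] at hx ⊢
    cases h0 : x 0 with
    | true => exact tm_right (h.spine i).1 _
    | false =>
      rw [h0] at hx
      simp only [spine]
      rw [tm_left (h.spine i).1, tm_out h i (tl x)]
      intro z hz
      exact hx z (by rw [hz]; rfl)

theorem IN_inj : ∀ (i j : ℕ) (z z' : CS), IN i z = IN j z' → i = j ∧ z = z'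
  | 0, 0, _, _, h => ⟨rfl, (cns_inj h).2⟩
  | 0, j + 1, _, _, h => absurd (cns_inj h).1 (by simp)
  | i + 1, 0, _, _, h => absurd (cns_inj h).1 (by simp)
  | i + 1, j + 1, z, z', h => by
    obtain ⟨h1, h2⟩ := IN_inj i j z z' (cns_inj h).2
    exact ⟨by rw [h1], h2⟩

theorem IN_add : ∀ (q i : ℕ) (z : CS), IN (q + i) z = app (List.replicate q false) (IN i z)
  | 0, i, z => by simp [app]
  | q + 1, i, z => by
    rw [show q + 1 + i = (q + i) + 1 by ring]
    simp only [IN, List.replicate_succ, app]
    rw [IN_add q i z]

/-- the depth of the leftmost leaf -/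
def ld : BT → ℕ
  | .leaf => 0
  | .node l _ => ld l + 1

theorem addr_zero : ∀ B : BT, addr B 0 = List.replicate (ld B) false
  | .leaf => rfl
  | .node l r => by
    simp only [addr, if_pos (size_pos l), ld, List.replicate_succ]
    rw [addr_zero l]

theorem par_replicate (q : ℕ) : par (List.replicate q false) = false := by
  induction q with
  | zero => rfl
  | succ q ih => rw [List.replicate_succ, par_cons, ih]; rfl

/-- the action of a triple near `0^∞` -/
theorem act_near (φ : G →* G) (t : Triple G) (i : ℕ) (z : CS) (h : G) :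
    act φ t (IN (ld t.pos + i) z, h) = (IN (ld t.neg + i) z, t.lab.getD 0 1 * h) := by
  have e := act_app φ t (j := 0) (size_pos _) (IN i z) h
  rw [addr_zero, addr_zero, par_replicate, par_replicate, tw_false] at e
  rw [IN_add, IN_add, e]
  rfl

/-- the triple with trivial labels -/
def triv (G : Type) [Group G] (A B : BT) (h : A.size = B.size) : Triple G where
  neg := A
  lab := List.replicate A.size 1
  pos := B
  hneg := List.length_replicate
  hpos := by rw [List.length_replicate, h]

theorem act_triv (φ : G →* G) {A B : BT} (h : PP A B) (x : CS) (g : G) :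
    act φ (triv G A B h.1) (x, g) = (tm A B x, g) := by
  obtain ⟨j, hj, z, rfl⟩ := exists_app B x
  have e := act_app φ (triv G A B h.1) (j := j) hj z g
  have e1 : (triv G A B h.1).pos = B := rfl
  have e2 : (triv G A B h.1).neg = A := rfl
  rw [e1, e2, h.2 j hj, Bool.xor_self, tw_false] at e
  rw [e, tm_app hj]
  have e3 : (triv G A B h.1).lab.getD j 1 = 1 := by
    change (List.replicate A.size (1 : G)).getD j 1 = 1
    exact List.getD_replicate _ (by rw [h.1]; exact hj)
  rw [e3, map_one, one_mul]

theorem adm_triv (ps : Bool) {A B : BT} (h : A.size = B.size) : Adm ps (triv G A B h) := by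
  intro _
  change (List.replicate A.size (1 : G)).head? = some 1
  have := size_pos A
  obtain ⟨n, hn⟩ : ∃ n, A.size = n + 1 := ⟨A.size - 1, by omega⟩
  rw [hn]
  rfl

/-! ### The special elements -/

/-- the tree with the leaves `00, 010, 011, 1` -/
def A0 : BT := .node (.node .leaf (.node .leaf .leaf)) .leaf

/-- the tree with the leaves `0, 10, 110, 111` -/
def B0 : BT := .node .leaf (.node .leaf (.node .leaf .leaf))

theorem PP0 : PP A0 B0 := by
  refine ⟨rfl, fun j hj => ?_⟩
  have : B0.size = 4 := rfl
  rw [this] at hj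
  interval_cases j <;> rfl

/-- the tree map `f_0` -/
def f0 (x : CS) : CS := tm A0 B0 x

/-- the tree map which is `f_0` on the left half -/
def f1 (x : CS) : CS := tm (.node A0 .leaf) (.node B0 .leaf) x

theorem PP1 : PP (.node A0 .leaf) (.node B0 .leaf) := PP0.node (PP.refl _)

theorem f0_false (x : CS) : f0 (cns false x) = cns false (cns false x) :=
  tm_app (A := A0) (B := B0) (j := 0) (by decide) x

theorem f0_110 (x : CS) : f0 (cns true (cns true (cns false x))) =
    cns false (cns true (cns true x)) :=
  tm_app (A := A0) (B := B0) (j := 2) (by decide) x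

theorem f1_false (x : CS) : f1 (cns false x) = cns false (f0 x) :=
  tm_left (A := A0) (B := B0) PP0.1 x

theorem f0_iter (x : CS) : ∀ k : ℕ, ∃ y, f0^[k] (cns false x) = cns false y ∧
    (0 < k → ∃ y', y = cns false y')
  | 0 => ⟨x, rfl, by omega⟩
  | k + 1 => by
    obtain ⟨y, hy, -⟩ := f0_iter x k
    refine ⟨cns false y, ?_, fun _ => ⟨y, rfl⟩⟩
    rw [Function.iterate_succ_apply', hy, f0_false]

theorem f1_iter (x : CS) : ∀ k : ℕ, f1^[k] (cns false x) = cns false (f0^[k] x)
  | 0 => rfl
  | k + 1 => by rw [Function.iterate_succ_apply', Function.iterate_succ_apply', f1_iter x k, f1_false]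

theorem f0_order {k : ℕ} (hk : 0 < k) : ∃ x, f0^[k] x ≠ x := by
  refine ⟨cns false (fun _ => true), fun h => ?_⟩
  obtain ⟨y, hy, h2⟩ := f0_iter (fun _ => true) k
  obtain ⟨y', rfl⟩ := h2 hk
  rw [hy] at h
  have := congrFun (cns_inj h).2 0
  simp [cns] at this

theorem f1_order {k : ℕ} (hk : 0 < k) : ∃ x, f1^[k] x ≠ x := by
  obtain ⟨x, hx⟩ := f0_order hk
  refine ⟨cns false x, fun h => hx ?_⟩
  rw [f1_iter] at h
  exact (cns_inj h).2

theorem f01_ne : ∃ x, f0 (f1 x) ≠ f1 (f0 x) := by
  refine ⟨cns false (cns true (cns true (cns false fun _ => true))), fun h => ?_⟩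
  rw [f1_false, f0_110, f0_false, f0_false, f1_false, f0_false] at h
  have := congrFun h 5
  simp [cns] at this

end Pool.Agent.Q175.CG
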