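import Pool.Agent.Q175.CG.Main

set_option autoImplicit false
set_option linter.unusedSectionVars false

/-!
# Existence of the cloning groups, and the main theorem
-/

namespace Pool.Agent.Q175.CG

section

variable {G : Type} [Group G] (φ : G →* G) (hφ : ∀ g, φ (φ g) = g) (ps : Bool)

/-- the group of the permutations given by triples -/
def Grp : Subgroup (Equiv.Perm (CS × G)) where
  carrier := {π | ∃ t : {t : Triple G // Adm ps t}, perm φ hφ t.1 = π}
  one_mem' := by
    refine ⟨⟨triv G .leaf .leaf rfl, adm_triv ps rfl⟩, ?_⟩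
    apply Equiv.ext
    rintro ⟨x, g⟩
    exact act_triv φ (PP.refl .leaf) x g
  mul_mem' := by
    rintro _ _ ⟨s, rfl⟩ ⟨t, rfl⟩
    obtain ⟨s', t', hst, es, et⟩ := exists_comp (φ := φ) s t
    refine ⟨⟨mulT s'.1 t'.1 hst, adm_mul hst s'.2 t'.2⟩, ?_⟩
    have e1 : perm φ hφ s.1 = perm φ hφ s'.1 := Equiv.ext fun P => congrFun (act_eqv hφ es) P
    have e2 : perm φ hφ t.1 = perm φ hφ t'.1 := Equiv.ext fun P => congrFun (act_eqv hφ et) P
    rw [e1, e2, perm_mulT hφ _ _ hst]
  inv_mem' := by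
    rintro _ ⟨s, rfl⟩
    refine ⟨⟨inv s.1, adm_inv s.2⟩, ?_⟩
    rw [eq_inv_iff_mul_eq_one]
    apply Equiv.ext
    intro P
    exact act_inv hφ s.1 P

/-- The groups of the problem exist. -/
theorem isCloningGroup_Grp : IsCloningGroup φ ps (Grp φ hφ ps)
    (fun t => ⟨perm φ hφ t.1, t, rfl⟩) where
  surj := by
    rintro ⟨_, t, rfl⟩
    exact ⟨t, rfl⟩
  eq_iff s t := by
    constructor
    · intro h
      apply eqv_of_act hφ
      funext P
      exact congrArg (fun F : Equiv.Perm (CS × G) => F P) (Subtype.ext_iff.1 h)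
    · intro h
      apply Subtype.ext
      exact Equiv.ext fun P => congrFun (act_eqv hφ h) P
  mul s t u h1 h2 h3 h4 := by
    apply Subtype.ext
    apply Equiv.ext
    intro P
    exact act_mul hφ h1 h2 h3 h4 P

end

/-- Main theorem. -/
theorem main (G : Type) [Group G] (φ : G →* G) (hφ : ∀ g, φ (φ g) = g) (ps : Bool) :
    (∃ (Γ : Type) (_ : Group Γ) (cls : {t : Triple G // Adm ps t} → Γ),
      IsCloningGroup φ ps Γ cls) ∧
    ∀ (Γ : Type) [Group Γ] (cls : {t : Triple G // Adm ps t} → Γ),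
      IsCloningGroup φ ps Γ cls → HasGamma Γ ∧ HasNoncommutingCentralSequences Γ := by
  classical
  refine ⟨⟨Grp φ hφ ps, inferInstance, _, isCloningGroup_Grp φ hφ ps⟩, ?_⟩
  intro Γ _ cls hc
  have S0 := sys hφ hc PP0 fun k hk => f0_order hk
  have S1 := sys hφ hc PP1 fun k hk => f1_order hk
  refine ⟨⟨_, isCentral S0⟩, noncommuting S0 S1 fun i h => ?_⟩
  obtain ⟨x, hx⟩ := f01_ne
  apply hx
  have h1 := congrArg (fun y => theta hφ hc y (IN i x, (1 : G))) h
  simp only [map_mul, Equiv.Perm.mul_apply, theta_W_IN] at h1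
  exact (IN_inj _ _ _ _ (Prod.mk.inj h1).1).2

end Pool.Agent.Q175.CG
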