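import Pool.Agent.Q175.CG.VN2

set_option autoImplicit false
set_option linter.unusedSectionVars false

/-!
# Central sequences of unitaries in group von Neumann algebras: trace and commutators
-/

open scoped ENNReal lp InnerProductSpace
open Pool.Agent.Helper741.GroupVN Filter

namespace Pool.Agent.Q175.CG

noncomputable section

variable {G : Type} [Group G] [DecidableEq G]

/-- left part -/
def LA (w : ℕ → G) (n : ℕ) : Op G := Pr (cs (n + 1)) w (2 * (n + 1))

/-- right part -/
def LB (w : ℕ → G) (n : ℕ) : Op G :=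
  Pr (fun i => cs (n + 1) (2 * (n + 1) + (1 + i))) (fun i => w (2 * (n + 1) + (1 + i))) n

theorem US_split (w : ℕ → G) (n : ℕ) :
    US w n = LA w n * (-(lam (w (2 * (n + 1))))) * LB w n := by
  unfold US
  have e : 3 * (n + 1) = 2 * (n + 1) + (1 + n) := by ring
  rw [e, Pr_add, Pr_add, ← mul_assoc]
  have e2 : Pr (fun i => cs (n + 1) (2 * (n + 1) + i)) (fun i => w (2 * (n + 1) + i)) 1 =
      -(lam (w (2 * (n + 1))) : Op G) := by
    simp only [Pr, one_mul, add_zero]
    have e3 : cs (n + 1) (2 * (n + 1)) = 0 := by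
      unfold cs
      rw [tn_peak]
      norm_num
    rw [e3, Bl_zero]
  rw [e2]
  rfl

variable {w w' : ℕ → G} {H N : ℕ → Subgroup G}

theorem Sp_LA (S : Sys w H N) (n : ℕ) : Sp (N (2 * (n + 1))) (LA w n) :=
  Sp_Pr (cs_nonneg _) (cs_le_one _) w _ fun i hi => S.HN i _ (by omega) (S.wH i)

theorem Sp_LB (S : Sys w H N) (n : ℕ) : Sp (N (2 * (n + 1))) (LB w n) :=
  Sp_Pr (fun _ => cs_nonneg _ _) (fun _ => cs_le_one _ _) _ _
    fun i _ => S.HN _ _ (by omega) (S.wH _)

theorem comm_LA (S : Sys w H N) (n : ℕ) {h : G} (hh : h ∈ H (2 * (n + 1))) :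
    Commute (lam h) (LA w n) := by
  refine commute_Pr (cs_nonneg _) (cs_le_one _) w _ fun i hi => ?_
  unfold Commute SemiconjBy
  rw [lam_mul, lam_mul, S.comm (2 * (n + 1)) i (by omega) h hh (w i) (S.wH i)]

theorem comm_LB (S : Sys w H N) (n : ℕ) {h : G} (hh : h ∈ H (2 * (n + 1))) :
    Commute (lam h) (LB w n) := by
  refine commute_Pr (fun _ => cs_nonneg _ _) (fun _ => cs_le_one _ _) _ _ fun i hi => ?_
  unfold Commute SemiconjBy
  rw [lam_mul, lam_mul, S.comm (2 * (n + 1)) (2 * (n + 1) + (1 + i)) (by omega) h hh _ (S.wH _)]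

theorem LA_unitary (w : ℕ → G) (n : ℕ) : LA w n ∈ unitary (Op G) :=
  Pr_unitary (cs_nonneg _) (cs_le_one _) w _

theorem LB_unitary (w : ℕ → G) (n : ℕ) : LB w n ∈ unitary (Op G) :=
  Pr_unitary (fun _ => cs_nonneg _ _) (fun _ => cs_le_one _ _) _ _

/-- **The unitaries have trace zero.** -/
theorem US_trace (S : Sys w H N) (n : ℕ) : cf (US w n) 1 = 0 := by
  set h := w (2 * (n + 1)) with hh
  have hH : h ∈ H (2 * (n + 1)) := S.wH _
  have e : US w n = -(lam h * (LA w n * LB w n)) := by
    rw [US_split, mul_neg, neg_mul, ← hh, ← (comm_LA S n hH).eq, mul_assoc]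
  have h1 : (1 : G) ≠ h := by
    intro h1
    have := S.inf (2 * (n + 1)) 1 one_pos
    rw [pow_one] at this
    exact this h1.symm
  rw [e]
  have e2 : cf (-(lam h * (LA w n * LB w n))) 1 = -cf (lam h * (LA w n * LB w n)) 1 := by
    have := cf_smul (-1 : ℂ) (lam h * (LA w n * LB w n)) (1 : G)
    rw [neg_one_smul] at this
    rw [this]
    ring
  rw [e2, trace_mul (S.disj _) (Sp.lam hH) ((Sp_LA S n).mul (Sp_LB S n)), cf_lam, if_neg h1]
  ring

/-- **The two central sequences do not commute.** -/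
theorem US_comm (S : Sys w H N) (S' : Sys w' H N) (hne : ∀ i, w i * w' i ≠ w' i * w i) (n : ℕ) :
    ‖(US w n * US w' n - US w' n * US w n) (delta 1)‖ ^ 2 = 2 := by
  set h := w (2 * (n + 1)) with hh
  set h' := w' (2 * (n + 1)) with hh'
  have hH : h ∈ H (2 * (n + 1)) := S.wH _
  have hH' : h' ∈ H (2 * (n + 1)) := S'.wH _
  have e1 : US w n * US w' n =
      (lam h * lam h') * ((LA w n * LB w n) * (LA w' n * LB w' n)) := by
    rw [US_split, US_split, mul_neg, neg_mul, mul_neg, neg_mul, neg_mul, mul_neg, neg_neg, ← hh, ← hh',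
      ← (comm_LA S n hH).eq, ← (comm_LA S' n hH').eq]
    have c1 := (comm_LA S n hH').eq
    have c2 := (comm_LB S n hH').eq
    calc lam h * LA w n * LB w n * (lam h' * LA w' n * LB w' n) =
        lam h * LA w n * (LB w n * lam h') * (LA w' n * LB w' n) := by simp only [mul_assoc]
      _ = lam h * (LA w n * lam h') * LB w n * (LA w' n * LB w' n) := by
        rw [← c2]; simp only [mul_assoc]
      _ = _ := by rw [← c1]; simp only [mul_assoc]
  have e2 : US w' n * US w n =
      (lam h' * lam h) * ((LA w' n * LB w' n) * (LA w n * LB w n)) := by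
    rw [US_split, US_split, mul_neg, neg_mul, mul_neg, neg_mul, neg_mul, mul_neg, neg_neg, ← hh, ← hh',
      ← (comm_LA S n hH).eq, ← (comm_LA S' n hH').eq]
    have c1 := (comm_LA S' n hH).eq
    have c2 := (comm_LB S' n hH).eq
    calc lam h' * LA w' n * LB w' n * (lam h * LA w n * LB w n) =
        lam h' * LA w' n * (LB w' n * lam h) * (LA w n * LB w n) := by simp only [mul_assoc]
      _ = lam h' * (LA w' n * lam h) * LB w' n * (LA w n * LB w n) := by
        rw [← c2]; simp only [mul_assoc]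
      _ = _ := by rw [← c1]; simp only [mul_assoc]
  have hcf : cf (star (US w' n * US w n) * (US w n * US w' n)) 1 = 0 := by
    rw [e1, e2]
    set R := (LA w n * LB w n) * (LA w' n * LB w' n) with hR
    set R' := (LA w' n * LB w' n) * (LA w n * LB w n) with hR'
    have sR : Sp (N (2 * (n + 1))) R :=
      ((Sp_LA S n).mul (Sp_LB S n)).mul ((Sp_LA S' n).mul (Sp_LB S' n))
    have sR' : Sp (N (2 * (n + 1))) R' :=
      ((Sp_LA S' n).mul (Sp_LB S' n)).mul ((Sp_LA S n).mul (Sp_LB S n))
    have e3 : star (lam h' * lam h * R') * (lam h * lam h' * R) =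
        star R' * ((lam ((h' * h)⁻¹ * (h * h'))) * R) := by
      rw [star_mul, lam_mul, lam_mul, star_lam, mul_assoc, ← mul_assoc (lam (h' * h)⁻¹), lam_mul]
    have hm : (h' * h)⁻¹ * (h * h') ∈ H (2 * (n + 1)) :=
      mul_mem (inv_mem (mul_mem hH' hH)) (mul_mem hH hH')
    have hne1 : (1 : G) ≠ (h' * h)⁻¹ * (h * h') := by
      intro h1
      exact hne (2 * (n + 1)) ((eq_inv_mul_iff_mul_eq.1 h1).symm.trans (mul_one _))
    rw [e3, trace_comm (star_mem sR'.mem) (mul_mem (lam_mem _) sR.mem), mul_assoc,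
      trace_mul (S.disj _) (Sp.lam hm) (sR.mul sR'.star), cf_lam, if_neg hne1, zero_mul]
  have hd := dist_sq (mul_mem (US_unitary w' n) (US_unitary w n))
    (mul_mem (US_unitary w n) (US_unitary w' n))
  rw [hcf] at hd
  have e4 : US w n * US w' n - US w' n * US w n = -(US w' n * US w n - US w n * US w' n) := by
    abel
  rw [e4]
  change ‖-((US w' n * US w n - US w n * US w' n) (delta 1))‖ ^ 2 = 2
  rw [norm_neg, hd]
  simp

end

end Pool.Agent.Q175.CG
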