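import Pool.Agent.Q175.CG.Elts
import Pool.Agent.Q175.CG.VN3

set_option autoImplicit false
set_option linter.unusedSectionVars false

/-!
# Cloning groups built from an involution: central sequences
-/

open scoped ENNReal lp InnerProductSpace
open Pool.Agent.Helper741.GroupVN Filter

namespace Pool.Agent.Q175.CG

section hom

variable {G : Type} [Group G] {φ : G →* G} (hφ : ∀ g, φ (φ g) = g) {ps : Bool} {Γ : Type} [Group Γ]
  {cls : {t : Triple G // Adm ps t} → Γ} (hc : IsCloningGroup φ ps Γ cls)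

include hc in
theorem perm_eq_of_cls {s t : {t : Triple G // Adm ps t}} (h : cls s = cls t) :
    perm φ hφ s.1 = perm φ hφ t.1 := by
  have := act_eqv hφ ((hc.eq_iff s t).1 h)
  exact Equiv.ext fun P => congrFun this P

theorem perm_mulT (s t : Triple G) (h : s.pos = t.neg) :
    perm φ hφ s * perm φ hφ t = perm φ hφ (mulT s t h) := by
  apply Equiv.ext
  intro P
  exact act_mul hφ (u := mulT s t h) h rfl rfl rfl P

/-- a representative -/
noncomputable def rep (hc : IsCloningGroup φ ps Γ cls) (x : Γ) : {t : Triple G // Adm ps t} :=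
  (hc.surj x).choose

theorem cls_rep (hc : IsCloningGroup φ ps Γ cls) (x : Γ) : cls (rep hc x) = x :=
  (hc.surj x).choose_spec

theorem perm_cls_mul (hc : IsCloningGroup φ ps Γ cls) (s t u : {t : Triple G // Adm ps t})
    (h : cls s * cls t = cls u) : perm φ hφ s.1 * perm φ hφ t.1 = perm φ hφ u.1 := by
  obtain ⟨s', t', hst, es, et⟩ := exists_comp (φ := φ) s t
  have e1 := (hc.eq_iff _ _).2 es
  have e2 := (hc.eq_iff _ _).2 et
  have e3 := hc.mul s' t' ⟨mulT s'.1 t'.1 hst, adm_mul hst s'.2 t'.2⟩ hst rfl rfl rfl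
  rw [← e1, ← e2, h] at e3
  rw [perm_eq_of_cls hφ hc e1, perm_eq_of_cls hφ hc e2, perm_mulT hφ _ _ hst]
  exact (perm_eq_of_cls hφ hc e3).symm

/-- the action of the group -/
noncomputable def theta (hc : IsCloningGroup φ ps Γ cls) : Γ →* Equiv.Perm (CS × G) :=
  MonoidHom.mk' (fun x => perm φ hφ (rep hc x).1) fun x y => by
    refine (perm_cls_mul hφ hc _ _ _ ?_).symm
    rw [cls_rep hc x, cls_rep hc y, cls_rep hc (x * y)]

theorem theta_cls (t : {t : Triple G // Adm ps t}) :
    theta hφ hc (cls t) = perm φ hφ t.1 :=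
  perm_eq_of_cls hφ hc (cls_rep hc _)

theorem theta_inj : Function.Injective (theta hφ hc) := by
  intro x y hxy
  rw [← cls_rep hc x, ← cls_rep hc y, hc.eq_iff]
  apply eqv_of_act hφ
  rw [← cls_rep hc x, ← cls_rep hc y, theta_cls, theta_cls] at hxy
  funext P
  exact congrArg (fun F : Equiv.Perm (CS × G) => F P) hxy

/-- the element of the group given by two trees, in the cone `0^i 1` -/
noncomputable def W (cls : {t : Triple G // Adm ps t} → Γ) {A B : BT} (h : PP A B) (i : ℕ) : Γ :=
  cls ⟨triv G (spine i A) (spine i B) (h.spine i).1, adm_triv ps _⟩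

theorem theta_W_IN {A B : BT} (h : PP A B) (i : ℕ) (z : CS) (g : G) :
    theta hφ hc (W cls h i) (IN i z, g) = (IN i (tm A B z), g) := by
  unfold W
  rw [theta_cls]
  change act φ _ _ = _
  rw [act_triv φ (h.spine i), tm_IN h]

theorem theta_W_out {A B : BT} (h : PP A B) (i : ℕ) (x : CS) (hx : ∀ z, x ≠ IN i z) (g : G) :
    theta hφ hc (W cls h i) (x, g) = (x, g) := by
  unfold W
  rw [theta_cls]
  change act φ _ _ = _
  rw [act_triv φ (h.spine i), tm_out h i x hx]

theorem theta_W_pow {A B : BT} (h : PP A B) (i k : ℕ) (z : CS) (g : G) :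
    theta hφ hc (W cls h i ^ k) (IN i z, g) = (IN i ((tm A B)^[k] z), g) := by
  induction k with
  | zero => simp
  | succ k ih =>
    rw [pow_succ', map_mul, Equiv.Perm.mul_apply, ih, theta_W_IN, Function.iterate_succ_apply']

/-- elements which are trivial outside of the cone `0^j 1` -/
def HH (hc : IsCloningGroup φ ps Γ cls) (j : ℕ) : Subgroup Γ where
  carrier := {x | ∀ P : CS × G, (∀ z, P.1 ≠ IN j z) → theta hφ hc x P = P}
  one_mem' := fun P _ => by rw [map_one]; rfl
  mul_mem' := fun {a b} ha hb P hP => by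
    rw [map_mul, Equiv.Perm.mul_apply, hb P hP, ha P hP]
  inv_mem' := fun {a} ha P hP => by
    rw [map_inv, Equiv.Perm.inv_eq_iff_eq]
    exact (ha P hP).symm

/-- elements which are trivial on the cone `0^j 1` -/
def NN (hc : IsCloningGroup φ ps Γ cls) (j : ℕ) : Subgroup Γ where
  carrier := {x | ∀ z g, theta hφ hc x (IN j z, g) = (IN j z, g)}
  one_mem' := fun z g => by rw [map_one]; rfl
  mul_mem' := fun {a b} ha hb z g => by
    rw [map_mul, Equiv.Perm.mul_apply, hb, ha]
  inv_mem' := fun {a} ha z g => by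
    rw [map_inv, Equiv.Perm.inv_eq_iff_eq]
    exact (ha z g).symm

theorem sys {A B : BT} (h : PP A B) (hord : ∀ k : ℕ, 0 < k → ∃ x, (tm A B)^[k] x ≠ x) :
    Sys (W cls h) (HH hφ hc) (NN hφ hc) where
  wH i := by
    intro P hP
    exact theta_W_out hφ hc h i P.1 hP P.2
  HN i j hij := by
    intro x hx z g
    apply hx
    intro z' hz
    exact hij (IN_inj _ _ _ _ hz).1.symm
  disj j := by
    rw [eq_bot_iff]
    rintro x ⟨hx1, hx2⟩
    rw [Subgroup.mem_bot]
    apply theta_inj hφ hc
    rw [map_one]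
    apply Equiv.ext
    rintro ⟨x', g⟩
    by_cases hP : ∀ z, x' ≠ IN j z
    · exact hx1 (x', g) hP
    · push Not at hP
      obtain ⟨z, rfl⟩ := hP
      exact hx2 z g
  comm i j hij a ha b hb := by
    apply theta_inj hφ hc
    rw [map_mul, map_mul]
    have hd : Equiv.Perm.Disjoint (theta hφ hc a) (theta hφ hc b) := by
      rintro ⟨x, g⟩
      by_cases hP : ∀ z, x ≠ IN i z
      · exact Or.inl (ha (x, g) hP)
      · push Not at hP
        obtain ⟨z, rfl⟩ := hP
        right
        apply hb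
        intro z' hz
        exact hij (IN_inj _ _ _ _ hz).1
    exact hd.commute.eq
  inf i k hk hw := by
    obtain ⟨x, hx⟩ := hord k hk
    have h1 := theta_W_pow hφ hc h i k x (1 : G)
    rw [hw, map_one] at h1
    exact hx (IN_inj _ _ _ _ (Prod.mk.inj h1).1).2.symm
  shift x := by
    -- the action of `x` near `0^∞`
    set t := rep hc x with ht
    have hx : ∀ (i : ℕ) (z : CS) (g : G), theta hφ hc x (IN (ld t.1.pos + i) z, g) =
        (IN (ld t.1.neg + i) z, t.1.lab.getD 0 1 * g) := by
      intro i z g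
      rw [← cls_rep hc x, theta_cls, ← ht]
      exact act_near φ t.1 i z g
    -- conjugation
    have key : ∀ (y : Γ) (a : G) (q k : ℕ),
        (∀ i, q ≤ i → ∀ z g, theta hφ hc y (IN i z, g) = (IN (i + k) z, a * g)) →
        ∀ i, q ≤ i → y * W cls h i * y⁻¹ = W cls h (i + k) := by
      intro y a q k hy i hi
      rw [mul_inv_eq_iff_eq_mul]
      apply theta_inj hφ hc
      rw [map_mul, map_mul]
      apply Equiv.ext
      rintro ⟨x', g⟩
      rw [Equiv.Perm.mul_apply, Equiv.Perm.mul_apply]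
      by_cases hP : ∀ z, x' ≠ IN i z
      · rw [theta_W_out hφ hc h i x' hP]
        have hout : ∀ z, (theta hφ hc y (x', g)).1 ≠ IN (i + k) z := by
          intro z hz
          have h1 := hy i hi z (a⁻¹ * (theta hφ hc y (x', g)).2)
          rw [mul_inv_cancel_left] at h1
          have h2 : theta hφ hc y (x', g) =
              (IN (i + k) z, (theta hφ hc y (x', g)).2) := Prod.ext hz rfl
          rw [← h2] at h1
          have h3 := (theta hφ hc y).injective h1
          exact hP z (Prod.mk.inj h3).1.symm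
        exact (theta_W_out hφ hc h (i + k) _ hout _).symm
      · push Not at hP
        obtain ⟨z, rfl⟩ := hP
        rw [theta_W_IN, hy i hi, hy i hi, theta_W_IN]
    rcases le_total (ld t.1.pos) (ld t.1.neg) with hle | hle
    · refine ⟨ld t.1.neg - ld t.1.pos, ld t.1.pos, Or.inl (key x (t.1.lab.getD 0 1) _ _ ?_)⟩
      intro i hi z g
      have h1 := hx (i - ld t.1.pos) z g
      rw [show ld t.1.pos + (i - ld t.1.pos) = i by omega] at h1
      rw [h1]
      congr 2
      omega
    · refine ⟨ld t.1.pos - ld t.1.neg, ld t.1.neg, Or.inr ?_⟩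
      have h2 := key x⁻¹ (t.1.lab.getD 0 1)⁻¹ (ld t.1.neg) (ld t.1.pos - ld t.1.neg) ?_
      · intro i hi
        have := h2 i hi
        rwa [inv_inv] at this
      · intro i hi z g
        rw [map_inv, Equiv.Perm.inv_eq_iff_eq]
        have h1 := hx (i - ld t.1.neg) z ((t.1.lab.getD 0 1)⁻¹ * g)
        rw [mul_inv_cancel_left, show ld t.1.neg + (i - ld t.1.neg) = i by omega] at h1
        rw [← h1]
        congr 3
        omega

end hom

section final

open scoped Classical

theorem vN_sub (Γ : Type) [Group Γ] {x : L2 Γ →L[ℂ] L2 Γ} (hx : x ∈ vN Γ) : x ∈ LG Γ := by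
  rw [mem_LG]
  intro g
  refine hx (rho g) ?_
  rintro _ ⟨h, rfl⟩
  exact lam_rho h g

theorem mem_vN (Γ : Type) [Group Γ] {x : L2 Γ →L[ℂ] L2 Γ}
    (hx : ∀ T : L2 Γ →L[ℂ] L2 Γ, (∀ g, Commute T (lam g)) → Commute T x) : x ∈ vN Γ := by
  intro T hT
  refine (hx T fun g => ?_).eq
  exact (hT (lam g) ⟨g, rfl⟩).symm

theorem isCentral {Γ : Type} [Group Γ] {w : ℕ → Γ} {H N : ℕ → Subgroup Γ} (S : Sys w H N) :
    IsCentralUnitary Γ (US w) := by
  refine ⟨fun j => ⟨mem_vN Γ fun T hT => US_commute w j hT, US_unitary w j, ?_⟩, fun x hx => ?_⟩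
  · change ⟪delta (1 : Γ), US w j (delta 1)⟫_ℂ = 0
    rw [trace_eq, US_trace S]
  · exact central S (vN_sub Γ hx)

theorem noncommuting {Γ : Type} [Group Γ] {w w' : ℕ → Γ} {H N : ℕ → Subgroup Γ}
    (S : Sys w H N) (S' : Sys w' H N) (hne : ∀ i, w i * w' i ≠ w' i * w i) :
    HasNoncommutingCentralSequences Γ := by
  refine ⟨US w, US w', isCentral S, isCentral S', fun j => ?_⟩
  have h := US_comm S S' hne j
  change ‖(US w j * US w' j - US w' j * US w j) (delta (1 : Γ))‖ = _
  rw [← h, Real.sqrt_sq (norm_nonneg _)]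

end final

end Pool.Agent.Q175.CG
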