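import Pool.Agent.Q175.CG.Defs

set_option autoImplicit false
set_option linter.unusedSectionVars false

/-!
# Central sequences of unitaries in group von Neumann algebras (functional analysis part)
-/

open scoped ENNReal lp InnerProductSpace
open Pool.Agent.Helper741.GroupVN

namespace Pool.Agent.Q175.CG

noncomputable section

variable {G : Type} [Group G] [DecidableEq G]

/-- Fourier coefficient -/
def cf (x : Op G) (g : G) : ℂ := x (delta 1) g

omit [Group G] in
theorem inner_delta (g : G) (ξ : L2 G) : ⟪delta g, ξ⟫_ℂ = ξ g := by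
  unfold delta
  rw [lp.inner_single_left]
  simp

theorem trace_eq (x : Op G) : ⟪delta (1 : G), x (delta 1)⟫_ℂ = cf x 1 := inner_delta _ _

theorem star_inner (x : Op G) (ξ η : L2 G) : ⟪star x ξ, η⟫_ℂ = ⟪ξ, x η⟫_ℂ := by
  rw [ContinuousLinearMap.star_eq_adjoint, ContinuousLinearMap.adjoint_inner_left]

theorem star_inner' (x : Op G) (ξ η : L2 G) : ⟪ξ, star x η⟫_ℂ = ⟪x ξ, η⟫_ℂ := by
  rw [ContinuousLinearMap.star_eq_adjoint, ContinuousLinearMap.adjoint_inner_right]

theorem cf_star {x : Op G} (hx : x ∈ LG G) (g : G) : cf (star x) g = star (cf x g⁻¹) := by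
  have h1 : cf (star x) g = ⟪delta g, star x (delta 1)⟫_ℂ := (inner_delta _ _).symm
  rw [h1, star_inner', ← inner_conj_symm, inner_delta, apply_delta_coord hx, one_mul]
  rfl

/-- convolution formula -/
theorem cf_mul {x : Op G} (hx : x ∈ LG G) (y : Op G) (g : G) :
    cf (x * y) g = ∑' k, cf x (g * k⁻¹) * cf y k := by
  have h1 : cf (x * y) g = ⟪delta g, x (y (delta 1))⟫_ℂ := (inner_delta _ _).symm
  rw [h1, ← star_inner, lp.inner_eq_tsum]
  refine tsum_congr fun k => ?_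
  have h2 : (star x) (delta g) k = star (cf x (g * k⁻¹)) := by
    rw [← inner_delta, star_inner', ← inner_conj_symm, inner_delta, apply_delta_coord hx]
    rfl
  rw [h2]
  simp only [RCLike.inner_apply]
  rw [mul_comm]
  simp [cf]

/-- trace property -/
theorem trace_comm {x y : Op G} (hx : x ∈ LG G) (hy : y ∈ LG G) :
    cf (x * y) 1 = cf (y * x) 1 := by
  rw [cf_mul hx, cf_mul hy, ← (Equiv.inv G).tsum_eq]
  refine tsum_congr fun k => ?_
  simp only [Equiv.inv_apply, one_mul, inv_inv]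
  ring

theorem norm_star_delta {x : Op G} (hx : x ∈ LG G) :
    ‖star x (delta 1)‖ = ‖x (delta 1)‖ := by
  have h1 : ‖star x (delta 1)‖ ^ 2 = ‖x (delta 1)‖ ^ 2 := by
    rw [← @inner_self_eq_norm_sq ℂ, ← @inner_self_eq_norm_sq ℂ]
    congr 1
    rw [star_inner, ← star_inner x]
    have h2 := trace_comm hx (star_mem hx)
    rw [← trace_eq, ← trace_eq] at h2
    rw [star_inner, ← star_inner' x]
    exact h2
  exact (sq_eq_sq₀ (norm_nonneg _) (norm_nonneg _)).1 h1

/-- elements of `L(G)` supported on a subgroup -/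
structure Sp (K : Subgroup G) (x : Op G) : Prop where
  mem : x ∈ LG G
  zero : ∀ g ∉ K, cf x g = 0

theorem Sp.one (K : Subgroup G) : Sp K (1 : Op G) := by
  refine ⟨one_mem _, fun g hg => ?_⟩
  change (delta (1 : G) : L2 G) g = 0
  rw [delta_apply, if_neg]
  rintro rfl
  exact hg (one_mem _)

theorem Sp.lam {K : Subgroup G} {w : G} (hw : w ∈ K) : Sp K (lam w : Op G) := by
  refine ⟨lam_mem _, fun g hg => ?_⟩
  change (Pool.Agent.Helper741.GroupVN.lam w (delta 1) : L2 G) g = 0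
  rw [lam_delta, delta_apply, if_neg]
  rintro rfl
  exact hg (by simpa using hw)

theorem Sp.mul {K : Subgroup G} {x y : Op G} (hx : Sp K x) (hy : Sp K y) : Sp K (x * y) := by
  refine ⟨mul_mem hx.mem hy.mem, fun g hg => ?_⟩
  rw [cf_mul hx.mem]
  have : (fun k => cf x (g * k⁻¹) * cf y k) = fun _ => 0 := by
    funext k
    by_cases hk : k ∈ K
    · rw [hx.zero (g * k⁻¹), zero_mul]
      intro h
      exact hg (by simpa using mul_mem h hk)
    · rw [hy.zero k hk, mul_zero]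
  rw [this, tsum_zero]

theorem Sp.star {K : Subgroup G} {x : Op G} (hx : Sp K x) : Sp K (star x) := by
  refine ⟨star_mem hx.mem, fun g hg => ?_⟩
  rw [cf_star hx.mem, hx.zero, star_zero]
  intro h
  exact hg (by simpa using h)

theorem Sp.mono {K K' : Subgroup G} (h : K ≤ K') {x : Op G} (hx : Sp K x) : Sp K' x :=
  ⟨hx.mem, fun g hg => hx.zero g fun h' => hg (h h')⟩

/-- multiplicativity of the trace on independent subgroups -/
theorem trace_mul {H N : Subgroup G} (hHN : H ⊓ N = ⊥) {x y : Op G} (hx : Sp H x)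
    (hy : Sp N y) : cf (x * y) 1 = cf x 1 * cf y 1 := by
  rw [cf_mul hx.mem, tsum_eq_single 1]
  · simp
  · intro k hk
    by_cases h1 : k ∈ H
    · have h2 : k ∉ N := by
        intro h2
        apply hk
        have : k ∈ H ⊓ N := ⟨h1, h2⟩
        rw [hHN] at this
        exact this
      rw [hy.zero k h2, mul_zero]
    · rw [hx.zero, zero_mul]
      intro h
      exact h1 (by simpa using h)

omit [DecidableEq G] in
theorem norm_lam_le (w : G) : ‖(lam w : Op G)‖ ≤ 1 := by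
  unfold lam pop
  exact LinearMap.mkContinuous_norm_le _ zero_le_one _

theorem cf_lam_mul (w g : G) (y : Op G) : cf (lam w * y) g = cf y (w⁻¹ * g) := by
  change (lam w (y (delta 1)) : L2 G) g = _
  rw [lam_apply]
  rfl

theorem norm_cf_le (y : Op G) (g : G) : ‖cf y g‖ ≤ ‖y (delta 1)‖ :=
  lp.norm_apply_le_norm (by norm_num) _ _

/-- a bounded function which is contracted along `w` vanishes -/
theorem decay {b : G → ℂ} {B c : ℝ} {w : G} (hb : ∀ g, ‖b g‖ ≤ B) (hc : |c| < 1) (S : Set G)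
    (hS : ∀ g ∈ S, w⁻¹ * g ∈ S) (h : ∀ g ∈ S, b g = c * b (w⁻¹ * g)) :
    ∀ g ∈ S, b g = 0 := by
  have key : ∀ (n : ℕ), ∀ g ∈ S, ‖b g‖ ≤ |c| ^ n * B := by
    intro n
    induction n with
    | zero => intro g _; simpa using hb g
    | succ n ih =>
      intro g hg
      rw [h g hg, norm_mul, Complex.norm_real, Real.norm_eq_abs, pow_succ']
      rw [mul_assoc]
      exact mul_le_mul_of_nonneg_left (ih _ (hS g hg)) (abs_nonneg _)
  intro g hg
  have h1 : Filter.Tendsto (fun n : ℕ => |c| ^ n * B) Filter.atTop (nhds (0 * B)) :=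
    (tendsto_pow_atTop_nhds_zero_of_lt_one (abs_nonneg c) hc).mul_const B
  rw [zero_mul] at h1
  have h2 := ge_of_tendsto' h1 (fun n => key n g hg)
  exact norm_le_zero_iff.1 h2

/-! ### Blaschke factors -/

/-- `(1 - c W)⁻¹` -/
def Yi (c : ℝ) (w : G) : Op G := Ring.inverse (1 - (c : ℂ) • lam w)

omit [DecidableEq G] in
theorem isUnit_Yi {c : ℝ} (hc : |c| < 1) (w : G) : IsUnit (1 - (c : ℂ) • lam w : Op G) := by
  refine isUnit_one_sub_of_norm_lt_one ?_
  rw [norm_smul, Complex.norm_real, Real.norm_eq_abs]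
  calc |c| * ‖(lam w : Op G)‖ ≤ |c| * 1 := mul_le_mul_of_nonneg_left (norm_lam_le w) (abs_nonneg c)
    _ < 1 := by rwa [mul_one]

omit [DecidableEq G] in
theorem Yi_mul {c : ℝ} (hc : |c| < 1) (w : G) : Yi c w * (1 - (c : ℂ) • lam w) = 1 :=
  Ring.inverse_mul_cancel _ (isUnit_Yi hc w)

omit [DecidableEq G] in
theorem mul_Yi {c : ℝ} (hc : |c| < 1) (w : G) : (1 - (c : ℂ) • lam w) * Yi c w = 1 :=
  Ring.mul_inverse_cancel _ (isUnit_Yi hc w)

omit [DecidableEq G] in
theorem commute_inv {T a b : Op G} (h1 : a * b = 1) (h2 : b * a = 1) (h : Commute T a) :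
    Commute T b := by
  have : T * b = b * T := by
    calc T * b = (b * a) * (T * b) := by rw [h2, one_mul]
      _ = b * (a * T) * b := by simp only [mul_assoc]
      _ = b * (T * a) * b := by rw [h.eq]
      _ = b * T * (a * b) := by simp only [mul_assoc]
      _ = b * T := by rw [h1, mul_one]
  exact this

omit [DecidableEq G] in
theorem commute_Yi {c : ℝ} (hc : |c| < 1) {w : G} {T : Op G} (h : Commute T (lam w)) :
    Commute T (Yi c w) := by
  refine commute_inv (mul_Yi hc w) (Yi_mul hc w) ?_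
  exact (Commute.one_right T).sub_right (h.smul_right _)

/-- the Blaschke factor `(c - W)(1 - c W)⁻¹`, and `1` for `c = 1` -/
def Bl (c : ℝ) (w : G) : Op G := if c = 1 then 1 else ((c : ℂ) • 1 - lam w) * Yi c w

omit [DecidableEq G] in
theorem commute_Bl {c : ℝ} (h0 : 0 ≤ c) (h1 : c ≤ 1) {w : G} {T : Op G} (h : Commute T (lam w)) :
    Commute T (Bl c w) := by
  unfold Bl
  split_ifs with hc
  · exact Commute.one_right _
  · have hc' : |c| < 1 := by rw [abs_of_nonneg h0]; exact lt_of_le_of_ne h1 hc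
    exact (((Commute.one_right T).smul_right _).sub_right h).mul_right (commute_Yi hc' h)

theorem Yi_mem {c : ℝ} (hc : |c| < 1) (w : G) : Yi c w ∈ LG G := by
  rw [mem_LG]
  intro g
  refine (commute_Yi hc ?_).eq
  exact (lam_rho w g).symm

theorem cf_Yi {c : ℝ} (hc : |c| < 1) (w g : G) :
    cf (Yi c w) g = (if g = 1 then 1 else 0) + c * cf (Yi c w) (w⁻¹ * g) := by
  have h1 : Yi c w = 1 + (c : ℂ) • (lam w * Yi c w) := by
    have := mul_Yi hc w
    rw [sub_mul, one_mul, smul_mul_assoc] at this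
    rw [← this, sub_add_cancel]
  conv_lhs => rw [h1]
  rw [← cf_lam_mul]
  change (delta (1 : G) + (c : ℂ) • ((lam w * Yi c w) (delta 1)) : L2 G) g = _
  rw [lp.coeFn_add, Pi.add_apply, lp.coeFn_smul, Pi.smul_apply, delta_apply]
  rfl

theorem Sp_Yi {c : ℝ} (hc : |c| < 1) {K : Subgroup G} {w : G} (hw : w ∈ K) : Sp K (Yi c w) := by
  refine ⟨Yi_mem hc w, ?_⟩
  refine decay (norm_cf_le _) hc (w := w) {g | g ∉ K} ?_ ?_
  · intro g hg h
    exact hg (by simpa using mul_mem hw h)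
  · intro g hg
    rw [cf_Yi hc w g, if_neg, zero_add]
    rintro rfl
    exact hg (one_mem _)

theorem cf_Yi_inv {c : ℝ} (hc : |c| < 1) {w : G} (hw : ∀ k : ℕ, 0 < k → w ^ k ≠ 1) :
    cf (Yi c w) w⁻¹ = 0 := by
  refine decay (norm_cf_le _) hc (w := w) {g | ∃ k : ℕ, 0 < k ∧ g = (w ^ k)⁻¹} ?_ ?_ _
    ⟨1, one_pos, by simp⟩
  · rintro _ ⟨k, hk, rfl⟩
    exact ⟨k + 1, by omega, by rw [pow_succ, mul_inv_rev]⟩
  · rintro _ ⟨k, hk, rfl⟩
    rw [cf_Yi hc, if_neg, zero_add]
    rw [inv_eq_one]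
    exact hw k hk

theorem cf_Yi_one {c : ℝ} (hc : |c| < 1) {w : G} (hw : ∀ k : ℕ, 0 < k → w ^ k ≠ 1) :
    cf (Yi c w) 1 = 1 := by
  rw [cf_Yi hc, if_pos rfl, mul_one, cf_Yi_inv hc hw, mul_zero, add_zero]

theorem Sp_Bl {c : ℝ} (h0 : 0 ≤ c) (h1 : c ≤ 1) {K : Subgroup G} {w : G} (hw : w ∈ K) :
    Sp K (Bl c w) := by
  unfold Bl
  split_ifs with hc
  · exact Sp.one K
  · have hc' : |c| < 1 := by rw [abs_of_nonneg h0]; exact lt_of_le_of_ne h1 hc
    refine Sp.mul ?_ (Sp_Yi hc' hw)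
    refine ⟨sub_mem ((LG G).toStarSubalgebra.smul_mem (one_mem _) _) (lam_mem _), fun g hg => ?_⟩
    have h2 : cf ((c : ℂ) • 1 - lam w : Op G) g = c * cf (1 : Op G) g - cf (lam w : Op G) g := by
      change (((c : ℂ) • delta (1 : G)) - lam w (delta 1) : L2 G) g = _
      rw [lp.coeFn_sub, Pi.sub_apply, lp.coeFn_smul, Pi.smul_apply]
      rfl
    rw [h2, (Sp.one K).zero g hg, (Sp.lam hw).zero g hg]
    simp

omit [DecidableEq G] in
theorem star_lam_mul (w : G) : star (lam w : Op G) * lam w = 1 := by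
  rw [star_lam, lam_mul, inv_mul_cancel, lam_one]

omit [DecidableEq G] in
theorem lam_mul_star (w : G) : (lam w : Op G) * star (lam w) = 1 := by
  rw [star_lam, lam_mul, mul_inv_cancel, lam_one]

/-- the product `F_c^* F_{c'}` -/
theorem Bl_star_mul {c c' : ℝ} (h0 : 0 ≤ c) (h1 : c < 1) (h0' : 0 ≤ c') (h1' : c' < 1) (w : G) :
    star (Bl c w) * Bl c' w =
      (((1 + c * c' - c ^ 2 - c' ^ 2) / (1 - c * c') : ℝ) : ℂ) • (1 : Op G) +
      (((1 + c * c' - c ^ 2 - c' ^ 2) / (1 - c * c') * c' - c : ℝ) : ℂ) • (lam w * Yi c' w) +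
      (((1 + c * c' - c ^ 2 - c' ^ 2) / (1 - c * c') * c - c' : ℝ) : ℂ) •
        (star (lam w * Yi c w)) := by
  have hc : |c| < 1 := by rwa [abs_of_nonneg h0]
  have hc' : |c'| < 1 := by rwa [abs_of_nonneg h0']
  have hne : (1 - c * c') ≠ 0 := by nlinarith
  unfold Bl
  rw [if_neg h1.ne, if_neg h1'.ne]
  set W : Op G := lam w with hW
  set Z : Op G := star (Yi c w) with hZ
  set Y : Op G := Yi c' w with hY
  set a : ℝ := (1 + c * c' - c ^ 2 - c' ^ 2) / (1 - c * c') with ha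
  have hYW : (1 - (c' : ℂ) • W) * Y = 1 := mul_Yi hc' w
  have hZW : Z * (1 - (c : ℂ) • star W) = 1 := by
    have := congrArg star (mul_Yi hc w)
    rw [star_mul, star_one, star_sub, star_one, star_smul] at this
    have e : star (c : ℂ) = (c : ℂ) := Complex.conj_ofReal c
    rw [e] at this
    exact this
  have hWW : star W * W = 1 := star_lam_mul w
  have e1 : star (((c : ℂ) • 1 - W) * Yi c w) = Z * ((c : ℂ) • 1 - star W) := by
    rw [star_mul, star_sub, star_smul, star_one]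
    have e : star (c : ℂ) = (c : ℂ) := Complex.conj_ofReal c
    rw [e]
  rw [e1]
  have e2 : ((c : ℂ) • 1 - star W) * ((c' : ℂ) • 1 - W) =
      (a : ℂ) • ((1 - (c : ℂ) • star W) * (1 - (c' : ℂ) • W)) +
      ((a * c' - c : ℝ) : ℂ) • ((1 - (c : ℂ) • star W) * W) +
      ((a * c - c' : ℝ) : ℂ) • (star W * (1 - (c' : ℂ) • W)) := by
    simp only [sub_mul, mul_sub, smul_mul_assoc, mul_smul_comm, one_mul, mul_one, hWW]
    have haa : (a : ℂ) * (1 - c * c') = 1 + c * c' - c ^ 2 - c' ^ 2 := by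
      have : a * (1 - c * c') = 1 + c * c' - c ^ 2 - c' ^ 2 := by
        rw [ha]; field_simp
      exact_mod_cast this
    push_cast
    linear_combination (norm := module) (-haa) • (1 : Op G)
  have e3 : Z * ((c : ℂ) • 1 - star W) * (((c' : ℂ) • 1 - W) * Y) =
      Z * (((c : ℂ) • 1 - star W) * ((c' : ℂ) • 1 - W)) * Y := by
    simp only [mul_assoc]
  rw [e3, e2]
  simp only [mul_add, add_mul, mul_smul_comm, smul_mul_assoc]
  have f1 : Z * ((1 - (c : ℂ) • star W) * (1 - (c' : ℂ) • W)) * Y = 1 := by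
    calc _ = (Z * (1 - (c : ℂ) • star W)) * ((1 - (c' : ℂ) • W) * Y) := by simp only [mul_assoc]
      _ = 1 := by rw [hZW, hYW, one_mul]
  have f2 : Z * ((1 - (c : ℂ) • star W) * W) * Y = W * Y := by
    calc _ = (Z * (1 - (c : ℂ) • star W)) * (W * Y) := by simp only [mul_assoc]
      _ = W * Y := by rw [hZW, one_mul]
  have f3 : Z * (star W * (1 - (c' : ℂ) • W)) * Y = star (W * Yi c w) := by
    calc _ = (Z * star W) * ((1 - (c' : ℂ) • W) * Y) := by simp only [mul_assoc]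
      _ = Z * star W := by rw [hYW, mul_one]
      _ = _ := by rw [star_mul]
  rw [f1, f2, f3]
theorem cf_add (x y : Op G) (g : G) : cf (x + y) g = cf x g + cf y g := by
  change (x (delta 1) + y (delta 1) : L2 G) g = _
  rw [lp.coeFn_add, Pi.add_apply]
  rfl

theorem cf_sub (x y : Op G) (g : G) : cf (x - y) g = cf x g - cf y g := by
  change (x (delta 1) - y (delta 1) : L2 G) g = _
  rw [lp.coeFn_sub, Pi.sub_apply]
  rfl

theorem cf_smul (a : ℂ) (x : Op G) (g : G) : cf (a • x) g = a * cf x g := by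
  change (a • x (delta 1) : L2 G) g = _
  rw [lp.coeFn_smul, Pi.smul_apply]
  rfl

theorem cf_one (g : G) : cf (1 : Op G) g = if g = 1 then 1 else 0 := by
  change (delta (1 : G) : L2 G) g = _
  rw [delta_apply]

theorem cf_lam (w g : G) : cf (lam w : Op G) g = if g = w then 1 else 0 := by
  change (lam w (delta 1) : L2 G) g = _
  rw [lam_delta, mul_one, delta_apply]

theorem Bl_one (w : G) : Bl 1 w = (1 : Op G) := if_pos rfl

theorem Bl_zero (w : G) : Bl 0 w = -(lam w : Op G) := by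
  have h := mul_Yi (c := 0) (by simp) w
  simp only [Complex.ofReal_zero, zero_smul, sub_zero, one_mul] at h
  unfold Bl
  rw [if_neg (by norm_num), h]
  simp

theorem commute_star_Bl {c : ℝ} (h0 : 0 ≤ c) (h1 : c ≤ 1) (w : G) :
    Commute (star (Bl c w)) (Bl c w : Op G) := by
  have hW : Commute (star (lam w)) (lam w : Op G) := by
    unfold Commute SemiconjBy
    rw [star_lam_mul, lam_mul_star]
  have h2 : Commute (lam w : Op G) (star (Bl c w)) := by
    have := (commute_Bl h0 h1 hW).star_star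
    rw [star_star] at this
    exact this
  exact commute_Bl h0 h1 h2.symm

theorem Bl_unitary {c : ℝ} (h0 : 0 ≤ c) (h1 : c ≤ 1) (w : G) : Bl c w ∈ unitary (Op G) := by
  have h2 : star (Bl c w) * Bl c w = (1 : Op G) := by
    rcases eq_or_lt_of_le h1 with rfl | hlt
    · rw [Bl_one, star_one, one_mul]
    · rw [Bl_star_mul h0 hlt h0 hlt]
      have hne : (1 - c * c) ≠ 0 := by nlinarith
      have e : (1 + c * c - c ^ 2 - c ^ 2) / (1 - c * c) = 1 := by
        rw [div_eq_one_iff_eq hne]; ring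
      rw [e]
      simp
  rw [Unitary.mem_iff]
  exact ⟨h2, by rw [← (commute_star_Bl h0 h1 w).eq, h2]⟩

theorem cf_WY {c : ℝ} (hc : |c| < 1) {w : G} (hw : ∀ k : ℕ, 0 < k → w ^ k ≠ 1) :
    cf (lam w * Yi c w) 1 = 0 := by
  rw [cf_lam_mul, mul_one, cf_Yi_inv hc hw]

theorem cf_Bl_one {c : ℝ} (h0 : 0 ≤ c) (h1 : c ≤ 1) {w : G} (hw : ∀ k : ℕ, 0 < k → w ^ k ≠ 1) :
    cf (Bl c w) 1 = c := by
  rcases eq_or_lt_of_le h1 with rfl | hlt
  · rw [Bl_one, cf_one, if_pos rfl, Complex.ofReal_one]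
  · have hc : |c| < 1 := by rwa [abs_of_nonneg h0]
    unfold Bl
    rw [if_neg hlt.ne, sub_mul, cf_sub, cf_WY hc hw, smul_mul_assoc, one_mul, cf_smul,
      cf_Yi_one hc hw]
    ring

theorem cf_Bl_pair {c c' : ℝ} (h0 : 0 ≤ c) (h1 : c < 1) (h0' : 0 ≤ c') (h1' : c' < 1) {w : G}
    (hw : ∀ k : ℕ, 0 < k → w ^ k ≠ 1) :
    cf (star (Bl c w) * Bl c' w) 1 =
      (((1 + c * c' - c ^ 2 - c' ^ 2) / (1 - c * c') : ℝ) : ℂ) := by
  have hc : |c| < 1 := by rwa [abs_of_nonneg h0]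
  have hc' : |c'| < 1 := by rwa [abs_of_nonneg h0']
  rw [Bl_star_mul h0 h1 h0' h1', cf_add, cf_add, cf_smul, cf_smul, cf_smul, cf_one, if_pos rfl,
    cf_WY hc' hw, cf_star (mul_mem (lam_mem _) (Yi_mem hc _)), inv_one, cf_WY hc hw]
  simp

theorem cf_Bl_bound {s s' : ℝ} (h0 : 0 ≤ s) (h1 : s ≤ 1) (h0' : 0 ≤ s') (h1' : s' ≤ 1) {w : G}
    (hw : ∀ k : ℕ, 0 < k → w ^ k ≠ 1) :
    ‖1 - cf (star (Bl (1 - s ^ 2) w) * Bl (1 - s' ^ 2) w) 1‖ ≤ 4 * (s - s') ^ 2 := by
  have hs2 : s ^ 2 ≤ 1 := by nlinarith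
  have hs2' : s' ^ 2 ≤ 1 := by nlinarith
  rcases eq_or_lt_of_le h0 with rfl | hs
  · have e : (1 - (0 : ℝ) ^ 2) = 1 := by norm_num
    rw [e, Bl_one, star_one, one_mul, cf_Bl_one (by linarith) (by nlinarith [sq_nonneg s']) hw]
    have e2 : (1 : ℂ) - ((1 - s' ^ 2 : ℝ) : ℂ) = ((s' ^ 2 : ℝ) : ℂ) := by push_cast; ring
    rw [e2, Complex.norm_real, Real.norm_eq_abs, abs_of_nonneg (sq_nonneg _)]
    nlinarith [sq_nonneg s']
  · rcases eq_or_lt_of_le h0' with rfl | hs'
    · have e : (1 - (0 : ℝ) ^ 2) = 1 := by norm_num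
      have hm : Bl (1 - s ^ 2) w ∈ LG G :=
        (Sp_Bl (by linarith) (by nlinarith [sq_nonneg s]) (Subgroup.mem_top w)).mem
      rw [e, Bl_one, mul_one, cf_star hm, inv_one,
        cf_Bl_one (by linarith) (by nlinarith [sq_nonneg s]) hw]
      have e2 : (1 : ℂ) - star ((1 - s ^ 2 : ℝ) : ℂ) = ((s ^ 2 : ℝ) : ℂ) := by
        have : star ((1 - s ^ 2 : ℝ) : ℂ) = ((1 - s ^ 2 : ℝ) : ℂ) := Complex.conj_ofReal _
        rw [this]
        push_cast; ring
      rw [e2, Complex.norm_real, Real.norm_eq_abs, abs_of_nonneg (sq_nonneg _)]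
      nlinarith [sq_nonneg s]
    · have hc1 : 1 - s ^ 2 < 1 := by nlinarith
      have hc1' : 1 - s' ^ 2 < 1 := by nlinarith
      rw [cf_Bl_pair (by linarith) hc1 (by linarith) hc1' hw]
      have hpos : 0 < 1 - (1 - s ^ 2) * (1 - s' ^ 2) := by nlinarith
      have e2 : (1 : ℂ) - (((1 + (1 - s ^ 2) * (1 - s' ^ 2) - (1 - s ^ 2) ^ 2 - (1 - s' ^ 2) ^ 2) /
          (1 - (1 - s ^ 2) * (1 - s' ^ 2)) : ℝ) : ℂ) =
          (((s - s') ^ 2 * (s + s') ^ 2 / (1 - (1 - s ^ 2) * (1 - s' ^ 2)) : ℝ) : ℂ) := by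
        rw [← Complex.ofReal_one, ← Complex.ofReal_sub]
        congr 1
        field_simp
        ring
      rw [e2, Complex.norm_real, Real.norm_eq_abs, abs_of_nonneg (by positivity),
        div_le_iff₀ hpos]
      have h3 : (s + s') ^ 2 ≤ 4 * (1 - (1 - s ^ 2) * (1 - s' ^ 2)) := by
        nlinarith [sq_nonneg (s - s'), mul_nonneg (sq_nonneg s) (sub_nonneg.2 hs2'),
          mul_nonneg (sq_nonneg s') (sub_nonneg.2 hs2)]
      nlinarith [mul_le_mul_of_nonneg_left h3 (sq_nonneg (s - s'))]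

/-- conjugation -/
theorem conj_Bl {c : ℝ} (h0 : 0 ≤ c) (h1 : c ≤ 1) (g w : G) :
    lam g * Bl c w * lam g⁻¹ = (Bl c (g * w * g⁻¹) : Op G) := by
  have hgg : (lam g : Op G) * lam g⁻¹ = 1 := by rw [lam_mul, mul_inv_cancel, lam_one]
  have hgg' : (lam g⁻¹ : Op G) * lam g = 1 := by rw [lam_mul, inv_mul_cancel, lam_one]
  rcases eq_or_lt_of_le h1 with rfl | hlt
  · rw [Bl_one, Bl_one, mul_one, hgg]
  · have hc : |c| < 1 := by rwa [abs_of_nonneg h0]
    have hW : (lam g : Op G) * lam w * lam g⁻¹ = lam (g * w * g⁻¹) := by rw [lam_mul, lam_mul]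
    have hY : (lam g : Op G) * Yi c w * lam g⁻¹ = Yi c (g * w * g⁻¹) := by
      have e1 : (1 - (c : ℂ) • lam (g * w * g⁻¹) : Op G) * (lam g * Yi c w * lam g⁻¹) = 1 := by
        have e2 : (1 - (c : ℂ) • lam (g * w * g⁻¹) : Op G) =
            lam g * (1 - (c : ℂ) • lam w) * lam g⁻¹ := by
          rw [mul_sub, sub_mul, mul_one, hgg, mul_smul_comm, smul_mul_assoc, hW]
        rw [e2]
        calc _ = lam g * (1 - (c : ℂ) • lam w) * (lam g⁻¹ * lam g) * Yi c w * lam g⁻¹ := by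
              simp only [mul_assoc]
          _ = lam g * ((1 - (c : ℂ) • lam w) * Yi c w) * lam g⁻¹ := by
              rw [hgg', mul_one]; simp only [mul_assoc]
          _ = 1 := by rw [mul_Yi hc, mul_one, hgg]
      calc _ = (Yi c (g * w * g⁻¹) * (1 - (c : ℂ) • lam (g * w * g⁻¹))) *
            (lam g * Yi c w * lam g⁻¹) := by rw [Yi_mul hc, one_mul]
        _ = Yi c (g * w * g⁻¹) * ((1 - (c : ℂ) • lam (g * w * g⁻¹)) *
            (lam g * Yi c w * lam g⁻¹)) := by simp only [mul_assoc]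
        _ = _ := by rw [e1, mul_one]
    unfold Bl
    rw [if_neg hlt.ne, if_neg hlt.ne, ← hY, ← hW]
    have e3 : ((c : ℂ) • 1 - lam g * lam w * lam g⁻¹ : Op G) =
        lam g * ((c : ℂ) • 1 - lam w) * lam g⁻¹ := by
      rw [mul_sub, sub_mul, mul_smul_comm, smul_mul_assoc, mul_one, hgg]
    rw [e3]
    calc _ = lam g * ((c : ℂ) • 1 - lam w) * 1 * Yi c w * lam g⁻¹ := by
          rw [mul_one]; simp only [mul_assoc]
      _ = lam g * ((c : ℂ) • 1 - lam w) * (lam g⁻¹ * lam g) * Yi c w * lam g⁻¹ := by rw [hgg']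
      _ = _ := by simp only [mul_assoc]

/-! ### Products -/

/-- finite products of Blaschke factors -/
def Pr (c : ℕ → ℝ) (w : ℕ → G) : ℕ → Op G
  | 0 => 1
  | n + 1 => Pr c w n * Bl (c n) (w n)

section products

variable {c : ℕ → ℝ} (h0 : ∀ i, 0 ≤ c i) (h1 : ∀ i, c i ≤ 1)

include h0 h1

theorem Pr_unitary (w : ℕ → G) (n : ℕ) : Pr c w n ∈ unitary (Op G) := by
  induction n with
  | zero => exact one_mem _
  | succ n ih => exact mul_mem ih (Bl_unitary (h0 n) (h1 n) _)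

theorem commute_Pr {T : Op G} (w : ℕ → G) (n : ℕ) (h : ∀ i < n, Commute T (lam (w i))) :
    Commute T (Pr c w n) := by
  induction n with
  | zero => exact Commute.one_right _
  | succ n ih =>
    exact (ih fun i hi => h i (by omega)).mul_right (commute_Bl (h0 n) (h1 n) (h n (by omega)))

theorem Sp_Pr {K : Subgroup G} (w : ℕ → G) (n : ℕ) (h : ∀ i < n, w i ∈ K) :
    Sp K (Pr c w n) := by
  induction n with
  | zero => exact Sp.one K
  | succ n ih =>
    exact (ih fun i hi => h i (by omega)).mul (Sp_Bl (h0 n) (h1 n) (h n (by omega)))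

theorem conj_Pr (g : G) (w : ℕ → G) (n : ℕ) :
    lam g * Pr c w n * lam g⁻¹ = (Pr c (fun i => g * w i * g⁻¹) n : Op G) := by
  have hgg : (lam g : Op G) * lam g⁻¹ = 1 := by rw [lam_mul, mul_inv_cancel, lam_one]
  have hgg' : (lam g⁻¹ : Op G) * lam g = 1 := by rw [lam_mul, inv_mul_cancel, lam_one]
  induction n with
  | zero => simp only [Pr, mul_one, hgg]
  | succ n ih =>
    simp only [Pr]
    rw [← ih, ← conj_Bl (h0 n) (h1 n)]
    calc _ = lam g * Pr c w n * 1 * Bl (c n) (w n) * lam g⁻¹ := by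
          rw [mul_one]; simp only [mul_assoc]
      _ = lam g * Pr c w n * (lam g⁻¹ * lam g) * Bl (c n) (w n) * lam g⁻¹ := by rw [hgg']
      _ = _ := by simp only [mul_assoc]

omit h0 h1 in
theorem Pr_add (w : ℕ → G) (k n : ℕ) :
    Pr c w (k + n) = Pr c w k * Pr (fun i => c (k + i)) (fun i => w (k + i)) n := by
  induction n with
  | zero => simp [Pr]
  | succ n ih =>
    rw [← add_assoc]
    simp only [Pr]
    rw [ih, mul_assoc]

omit h0 h1 in
theorem Pr_eq_one (w : ℕ → G) (n : ℕ) (h : ∀ i < n, c i = 1) : Pr c w n = (1 : Op G) := by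
  induction n with
  | zero => rfl
  | succ n ih =>
    simp only [Pr]
    rw [ih fun i hi => h i (by omega), h n (by omega), Bl_one, one_mul]

omit h0 h1 in
theorem Pr_congr {c' : ℕ → ℝ} {w w' : ℕ → G} (n : ℕ)
    (h : ∀ i < n, c i = c' i ∧ (c i = 1 ∨ w i = w' i)) : Pr c w n = (Pr c' w' n : Op G) := by
  induction n with
  | zero => rfl
  | succ n ih =>
    simp only [Pr]
    rw [ih fun i hi => h i (by omega)]
    obtain ⟨e1, e2⟩ := h n (by omega)
    rw [← e1]
    rcases e2 with e2 | e2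
    · rw [e2, Bl_one, Bl_one]
    · rw [e2]

end products

end

end Pool.Agent.Q175.CG
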