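import Pool.Agent.Q175.CG.VN

set_option autoImplicit false
set_option linter.unusedSectionVars false

/-!
# Central sequences of unitaries in group von Neumann algebras (the sequences)
-/

open scoped ENNReal lp InnerProductSpace
open Pool.Agent.Helper741.GroupVN Filter

namespace Pool.Agent.Q175.CG

noncomputable section

variable {G : Type} [Group G] [DecidableEq G]

/-- a system of independent elements of infinite order which is eventually permuted by
translations under conjugation with each element of the group -/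
structure Sys (w : ℕ → G) (H N : ℕ → Subgroup G) : Prop where
  wH : ∀ i, w i ∈ H i
  HN : ∀ i j, i ≠ j → H i ≤ N j
  disj : ∀ j, H j ⊓ N j = ⊥
  comm : ∀ i j, i ≠ j → ∀ a ∈ H i, ∀ b ∈ H j, a * b = b * a
  inf : ∀ i (k : ℕ), 0 < k → w i ^ k ≠ 1
  shift : ∀ g : G, ∃ k i0 : ℕ, (∀ i, i0 ≤ i → g * w i * g⁻¹ = w (i + k)) ∨
    (∀ i, i0 ≤ i → g⁻¹ * w i * g = w (i + k))

theorem norm_delta_one : ‖(delta (1 : G) : L2 G)‖ = 1 := by
  have h := @inner_self_eq_norm_sq ℂ (L2 G) _ _ _ (delta (1 : G))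
  rw [inner_delta, delta_apply, if_pos rfl] at h
  rw [RCLike.one_re] at h
  nlinarith [norm_nonneg (delta (1 : G) : L2 G)]

theorem norm_unitary {u : Op G} (hu : u ∈ unitary (Op G)) (ξ : L2 G) : ‖u ξ‖ = ‖ξ‖ := by
  have h1 : ‖u ξ‖ ^ 2 = ‖ξ‖ ^ 2 := by
    rw [← @inner_self_eq_norm_sq ℂ, ← @inner_self_eq_norm_sq ℂ]
    congr 1
    rw [← star_inner']
    have h2 : star u (u ξ) = (star u * u) ξ := rfl
    rw [h2, (Unitary.mem_iff.1 hu).1]
    rfl
  exact (sq_eq_sq₀ (norm_nonneg _) (norm_nonneg _)).1 h1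

theorem norm_rho (g : G) (ξ : L2 G) : ‖(rho g : Op G) ξ‖ = ‖ξ‖ := by
  refine norm_unitary ?_ ξ
  have hr : ∀ a b : G, (rho a : Op G) * rho b = rho (a * b) := by
    intro a b
    ext ξ x
    change rho a (rho b ξ) x = _
    rw [rho_apply, rho_apply, rho_apply, mul_assoc]
  have h1 : (rho 1 : Op G) = 1 := by
    ext ξ x
    rw [rho_apply, mul_one]
    rfl
  rw [Unitary.mem_iff, star_rho, hr, hr, inv_mul_cancel, mul_inv_cancel, h1]
  exact ⟨rfl, rfl⟩

theorem norm_apply_delta {y : Op G} (hy : y ∈ LG G) (g : G) :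
    ‖y (delta g)‖ = ‖y (delta 1)‖ := by
  rw [apply_delta hy, norm_rho]

/-- the 2-norm of `y u` for a unitary `u` -/
theorem norm_mul_unitary {y u : Op G} (hy : y ∈ LG G) (hu : u ∈ LG G)
    (huu : u ∈ unitary (Op G)) : ‖(y * u) (delta 1)‖ = ‖y (delta 1)‖ := by
  rw [← norm_star_delta (mul_mem hy hu), star_mul]
  change ‖star u (star y (delta 1))‖ = _
  rw [norm_unitary (Unitary.star_mem huu), norm_star_delta hy]

theorem lam_unitary (g : G) : (lam g : Op G) ∈ unitary (Op G) := by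
  rw [Unitary.mem_iff]
  exact ⟨star_lam_mul g, lam_mul_star g⟩

/-! ### The distance of two products -/

theorem norm_cf_unitary {P Q : Op G} (hP : P ∈ unitary (Op G)) (hQ : Q ∈ unitary (Op G)) :
    ‖cf (star P * Q) 1‖ ≤ 1 := by
  have h1 : cf (star P * Q) 1 = ⟪P (delta 1), Q (delta 1)⟫_ℂ := by
    rw [← trace_eq]
    change ⟪delta (1 : G), star P (Q (delta 1))⟫_ℂ = _
    rw [star_inner']
  rw [h1]
  refine (norm_inner_le_norm _ _).trans ?_
  rw [norm_unitary hP, norm_unitary hQ, norm_delta_one, one_mul]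

theorem dist_sq {P Q : Op G} (hP : P ∈ unitary (Op G)) (hQ : Q ∈ unitary (Op G)) :
    ‖(P - Q) (delta 1)‖ ^ 2 = 2 * (1 - (cf (star P * Q) 1).re) := by
  have h1 : cf (star P * Q) 1 = ⟪P (delta 1), Q (delta 1)⟫_ℂ := by
    rw [← trace_eq]
    change ⟪delta (1 : G), star P (Q (delta 1))⟫_ℂ = _
    rw [star_inner']
  change ‖P (delta 1) - Q (delta 1)‖ ^ 2 = _
  rw [@norm_sub_sq ℂ, h1, norm_unitary hP, norm_unitary hQ, norm_delta_one]
  simp only [RCLike.re_to_complex]
  ring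

variable {w : ℕ → G} {H N : ℕ → Subgroup G}

theorem trace_close (S : Sys w H N) {s s' : ℕ → ℝ} (h0 : ∀ i, 0 ≤ s i) (h1 : ∀ i, s i ≤ 1)
    (h0' : ∀ i, 0 ≤ s' i) (h1' : ∀ i, s' i ≤ 1) (n : ℕ) :
    ‖1 - cf (star (Pr (fun i => 1 - s i ^ 2) w n) * Pr (fun i => 1 - s' i ^ 2) w n) 1‖ ≤
      ∑ i ∈ Finset.range n, 4 * (s i - s' i) ^ 2 := by
  have c0 : ∀ i, 0 ≤ 1 - s i ^ 2 := fun i => by nlinarith [h0 i, h1 i]
  have c1 : ∀ i, 1 - s i ^ 2 ≤ 1 := fun i => by nlinarith [sq_nonneg (s i)]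
  have c0' : ∀ i, 0 ≤ 1 - s' i ^ 2 := fun i => by nlinarith [h0' i, h1' i]
  have c1' : ∀ i, 1 - s' i ^ 2 ≤ 1 := fun i => by nlinarith [sq_nonneg (s' i)]
  induction n with
  | zero =>
    simp only [Pr, star_one, one_mul, Finset.range_zero, Finset.sum_empty]
    rw [cf_one, if_pos rfl, sub_self, norm_zero]
  | succ n ih =>
    rw [Finset.sum_range_succ]
    simp only [Pr]
    set P := Pr (fun i => 1 - s i ^ 2) w n with hP
    set Q := Pr (fun i => 1 - s' i ^ 2) w n with hQ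
    set b := Bl (1 - s n ^ 2) (w n) with hb
    set b' := Bl (1 - s' n ^ 2) (w n) with hb'
    have sP : Sp (N n) P := Sp_Pr c0 c1 w n fun i hi => S.HN i n hi.ne (S.wH i)
    have sQ : Sp (N n) Q := Sp_Pr c0' c1' w n fun i hi => S.HN i n hi.ne (S.wH i)
    have sb : Sp (H n) b := Sp_Bl (c0 n) (c1 n) (S.wH n)
    have sb' : Sp (H n) b' := Sp_Bl (c0' n) (c1' n) (S.wH n)
    have uP : P ∈ unitary (Op G) := Pr_unitary c0 c1 w n
    have uQ : Q ∈ unitary (Op G) := Pr_unitary c0' c1' w n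
    have e1 : cf (star (P * b) * (Q * b')) 1 = cf (star P * Q) 1 * cf (star b * b') 1 := by
      have e2 : star (P * b) * (Q * b') = star b * ((star P * Q) * b') := by
        rw [star_mul]; simp only [mul_assoc]
      rw [e2, trace_comm (star_mem sb.mem) (mul_mem (mul_mem (star_mem sP.mem) sQ.mem) sb'.mem),
        mul_assoc, trace_mul (by rw [inf_comm]; exact S.disj n) (sP.star.mul sQ)
          (sb'.mul sb.star), trace_comm sb'.mem (star_mem sb.mem)]
    rw [e1]
    have e3 : 1 - cf (star P * Q) 1 * cf (star b * b') 1 =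
        (1 - cf (star P * Q) 1) + cf (star P * Q) 1 * (1 - cf (star b * b') 1) := by ring
    rw [e3]
    refine (norm_add_le _ _).trans (add_le_add ih ?_)
    rw [norm_mul]
    have e4 := cf_Bl_bound (h0 n) (h1 n) (h0' n) (h1' n) (S.inf n)
    calc _ ≤ 1 * ‖1 - cf (star b * b') 1‖ :=
          mul_le_mul_of_nonneg_right (norm_cf_unitary uP uQ) (norm_nonneg _)
      _ ≤ _ := by rw [one_mul]; exact e4

theorem dist_close (S : Sys w H N) {s s' : ℕ → ℝ} (h0 : ∀ i, 0 ≤ s i) (h1 : ∀ i, s i ≤ 1)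
    (h0' : ∀ i, 0 ≤ s' i) (h1' : ∀ i, s' i ≤ 1) (n : ℕ) :
    ‖(Pr (fun i => 1 - s i ^ 2) w n - Pr (fun i => 1 - s' i ^ 2) w n) (delta 1)‖ ^ 2 ≤
      ∑ i ∈ Finset.range n, 8 * (s i - s' i) ^ 2 := by
  have c0 : ∀ i, 0 ≤ 1 - s i ^ 2 := fun i => by nlinarith [h0 i, h1 i]
  have c1 : ∀ i, 1 - s i ^ 2 ≤ 1 := fun i => by nlinarith [sq_nonneg (s i)]
  have c0' : ∀ i, 0 ≤ 1 - s' i ^ 2 := fun i => by nlinarith [h0' i, h1' i]
  have c1' : ∀ i, 1 - s' i ^ 2 ≤ 1 := fun i => by nlinarith [sq_nonneg (s' i)]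
  rw [dist_sq (Pr_unitary c0 c1 w n) (Pr_unitary c0' c1' w n)]
  have h := trace_close S h0 h1 h0' h1' n
  have h2 := (Complex.re_le_norm _).trans h
  rw [Complex.sub_re, Complex.one_re] at h2
  have h3 : ∑ i ∈ Finset.range n, 8 * (s i - s' i) ^ 2 =
      2 * ∑ i ∈ Finset.range n, 4 * (s i - s' i) ^ 2 := by
    rw [Finset.mul_sum]
    exact Finset.sum_congr rfl fun i _ => by ring
  rw [h3]
  linarith

/-! ### The sequence -/

/-- the tent function with peak at `2 m` and half width `m` -/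
def tn (m : ℕ) (x : ℝ) : ℝ := max 0 (1 - |x - 2 * m| / m)

theorem tn_nonneg (m : ℕ) (x : ℝ) : 0 ≤ tn m x := le_max_left _ _

theorem tn_le_one (m : ℕ) (x : ℝ) : tn m x ≤ 1 := by
  unfold tn
  refine max_le zero_le_one ?_
  have : 0 ≤ |x - 2 * m| / m := by positivity
  linarith

theorem tn_zero {m : ℕ} (hm : 0 < m) {x : ℝ} (h : x ≤ m ∨ 3 * m ≤ x) : tn m x = 0 := by
  unfold tn
  apply max_eq_left
  have hm' : (0 : ℝ) < m := by exact_mod_cast hm
  rw [sub_nonpos, le_div_iff₀ hm', one_mul]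
  rcases h with h | h
  · rw [abs_of_nonpos (by linarith)]; linarith
  · rw [abs_of_nonneg (by linarith)]; linarith

theorem tn_peak (m : ℕ) : tn m ((2 * m : ℕ) : ℝ) = 1 := by
  unfold tn
  push_cast
  simp

theorem tn_lip {m : ℕ} (hm : 0 < m) (x y : ℝ) : |tn m x - tn m y| ≤ |x - y| / m := by
  have hm' : (0 : ℝ) < m := by exact_mod_cast hm
  unfold tn
  rw [max_comm 0 (1 - |x - 2 * m| / m), max_comm 0 (1 - |y - 2 * m| / m)]
  refine (abs_max_sub_max_le_abs _ _ _).trans ?_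
  have e : 1 - |x - 2 * m| / m - (1 - |y - 2 * m| / m) = (|y - 2 * m| - |x - 2 * m|) / m := by
    ring
  rw [e, abs_div, abs_of_pos hm']
  apply div_le_div_of_nonneg_right _ hm'.le
  refine (abs_abs_sub_abs_le_abs_sub _ _).trans ?_
  rw [show y - 2 * m - (x - 2 * m) = -(x - y) by ring, abs_neg]

/-- the parameters -/
def cs (m : ℕ) (i : ℕ) : ℝ := 1 - tn m i ^ 2

theorem cs_nonneg (m i : ℕ) : 0 ≤ cs m i := by
  unfold cs; nlinarith [tn_nonneg m i, tn_le_one m i]

theorem cs_le_one (m i : ℕ) : cs m i ≤ 1 := by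
  unfold cs; nlinarith [sq_nonneg (tn m i)]

/-- the central sequence -/
def US (w : ℕ → G) (n : ℕ) : Op G := Pr (cs (n + 1)) w (3 * (n + 1))

theorem US_unitary (w : ℕ → G) (n : ℕ) : US w n ∈ unitary (Op G) :=
  Pr_unitary (cs_nonneg _) (cs_le_one _) w _

theorem US_commute (w : ℕ → G) (n : ℕ) {T : Op G} (h : ∀ g, Commute T (lam g)) :
    Commute T (US w n) :=
  commute_Pr (cs_nonneg _) (cs_le_one _) w _ fun i _ => h (w i)

theorem US_mem (w : ℕ → G) (n : ℕ) : US w n ∈ LG G :=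
  (Sp_Pr (cs_nonneg _) (cs_le_one _) (K := ⊤) w _ fun _ _ => Subgroup.mem_top _).mem

/-- the conjugate of the sequence by `g`, if `g` shifts to the right -/
theorem conj_close (S : Sys w H N) {g : G} {k i0 : ℕ}
    (hk : ∀ i, i0 ≤ i → g * w i * g⁻¹ = w (i + k)) {n : ℕ} (hn : i0 ≤ n) :
    ‖(lam g * US w n * lam g⁻¹ - US w n) (delta 1)‖ ^ 2 ≤
      (3 * (n + 1) + k) * (8 * ((k : ℝ) / (n + 1)) ^ 2) := by
  have hm : 0 < n + 1 := by omega
  unfold US
  rw [conj_Pr (cs_nonneg _) (cs_le_one _)]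
  have e1 : Pr (cs (n + 1)) (fun i => g * w i * g⁻¹) (3 * (n + 1)) =
      (Pr (fun i => 1 - tn (n + 1) ((i : ℝ) - k) ^ 2) w (k + 3 * (n + 1)) : Op G) := by
    rw [Pr_add]
    have e2 : Pr (fun i => 1 - tn (n + 1) ((i : ℝ) - k) ^ 2) w k = (1 : Op G) := by
      apply Pr_eq_one
      intro i hi
      have hi' : (i : ℝ) < k := by exact_mod_cast hi
      rw [tn_zero hm (Or.inl _)]
      · norm_num
      · have : (0 : ℝ) ≤ ((n + 1 : ℕ) : ℝ) := Nat.cast_nonneg _
        linarith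
    rw [e2, one_mul]
    apply Pr_congr
    intro i _
    constructor
    · unfold cs
      push_cast
      rw [add_sub_cancel_left]
    · by_cases hi : i ≤ n + 1
      · left
        unfold cs
        rw [tn_zero hm (Or.inl (by exact_mod_cast hi))]
        norm_num
      · right
        rw [hk i (by omega), add_comm]
  have e3 : Pr (cs (n + 1)) w (3 * (n + 1)) =
      (Pr (fun i => 1 - tn (n + 1) (i : ℝ) ^ 2) w (k + 3 * (n + 1)) : Op G) := by
    rw [add_comm k (3 * (n + 1)), Pr_add]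
    have e2 : Pr (fun i => 1 - tn (n + 1) (((3 * (n + 1) + i : ℕ) : ℝ)) ^ 2)
        (fun i => w (3 * (n + 1) + i)) k = (1 : Op G) := by
      apply Pr_eq_one
      intro i _
      rw [tn_zero hm (Or.inr _)]
      · norm_num
      · push_cast
        have : (0 : ℝ) ≤ (i : ℝ) := Nat.cast_nonneg _
        linarith
    rw [e2, mul_one]
    rfl
  rw [e1, e3]
  refine (dist_close S (fun i => tn_nonneg _ _) (fun i => tn_le_one _ _)
    (fun i => tn_nonneg _ _) (fun i => tn_le_one _ _) _).trans ?_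
  have h4 : ∀ i ∈ Finset.range (k + 3 * (n + 1)),
      8 * (tn (n + 1) ((i : ℝ) - k) - tn (n + 1) (i : ℝ)) ^ 2 ≤ 8 * ((k : ℝ) / (n + 1)) ^ 2 := by
    intro i _
    have h5 := tn_lip hm ((i : ℝ) - k) (i : ℝ)
    rw [show (i : ℝ) - k - i = -k by ring, abs_neg, Nat.abs_cast] at h5
    have h6 : (tn (n + 1) ((i : ℝ) - k) - tn (n + 1) (i : ℝ)) ^ 2 ≤ ((k : ℝ) / (n + 1)) ^ 2 := by
      rw [← sq_abs]
      push_cast at h5
      exact pow_le_pow_left₀ (abs_nonneg _) h5 2
    linarith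
  refine (Finset.sum_le_card_nsmul _ _ _ h4).trans ?_
  rw [Finset.card_range, nsmul_eq_mul]
  push_cast
  apply le_of_eq
  ring

theorem tendsto_bound (k : ℕ) :
    Tendsto (fun n : ℕ => Real.sqrt ((3 * ((n : ℝ) + 1) + k) * (8 * ((k : ℝ) / (n + 1)) ^ 2)))
      atTop (nhds 0) := by
  have h1 : Tendsto (fun n : ℕ => (1 : ℝ) / (n + 1)) atTop (nhds 0) :=
    tendsto_one_div_add_atTop_nhds_zero_nat
  have h2 : Tendsto (fun n : ℕ => 24 * (k : ℝ) ^ 2 * (1 / (n + 1)) +
      8 * (k : ℝ) ^ 3 * ((1 / (n + 1)) * (1 / (n + 1)))) atTop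
      (nhds (24 * (k : ℝ) ^ 2 * 0 + 8 * (k : ℝ) ^ 3 * (0 * 0))) :=
    (h1.const_mul _).add ((h1.mul h1).const_mul _)
  have h3 : Tendsto (fun n : ℕ => (3 * ((n : ℝ) + 1) + k) * (8 * ((k : ℝ) / (n + 1)) ^ 2))
      atTop (nhds 0) := by
    have e0 : (24 * (k : ℝ) ^ 2 * 0 + 8 * (k : ℝ) ^ 3 * (0 * 0)) = 0 := by ring
    rw [e0] at h2
    refine h2.congr fun n => ?_
    have : (n : ℝ) + 1 ≠ 0 := by positivity
    field_simp
    ring
  have h4 := h3.sqrt
  rwa [Real.sqrt_zero] at h4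

/-- the 2-norm of the commutator -/
def cm (u x : Op G) : ℝ := ‖(u * x - x * u) (delta 1)‖

theorem cm_nonneg (u x : Op G) : 0 ≤ cm u x := norm_nonneg _

theorem cm_lam (S : Sys w H N) (g : G) : Tendsto (fun n => cm (US w n) (lam g)) atTop (nhds 0) := by
  have hgg : (lam g : Op G) * lam g⁻¹ = 1 := by rw [lam_mul, mul_inv_cancel, lam_one]
  have hgg' : (lam g⁻¹ : Op G) * lam g = 1 := by rw [lam_mul, inv_mul_cancel, lam_one]
  obtain ⟨k, i0, hk⟩ := S.shift g
  refine squeeze_zero' (Eventually.of_forall fun n => norm_nonneg _) ?_ (tendsto_bound k)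
  filter_upwards [eventually_ge_atTop i0] with n hn
  rcases hk with hk | hk
  · have h1 := conj_close S hk hn
    have h2 : cm (US w n) (lam g) = ‖(lam g * US w n * lam g⁻¹ - US w n) (delta 1)‖ := by
      unfold cm
      have e : US w n * lam g - lam g * US w n =
          -((lam g * US w n * lam g⁻¹ - US w n) * lam g) := by
        rw [sub_mul, mul_assoc _ (lam g⁻¹) (lam g), hgg', mul_one]
        abel
      rw [e]
      change ‖-((lam g * US w n * lam g⁻¹ - US w n) (lam g (delta 1)))‖ = _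
      rw [norm_neg, lam_delta, mul_one]
      exact norm_apply_delta (sub_mem (mul_mem (mul_mem (lam_mem _) (US_mem _ _)) (lam_mem _))
        (US_mem _ _)) g
    rw [h2]
    exact Real.le_sqrt_of_sq_le h1
  · have hk' : ∀ i, i0 ≤ i → g⁻¹ * w i * g⁻¹⁻¹ = w (i + k) := by
      intro i hi
      rw [inv_inv]
      exact hk i hi
    have h1 := conj_close S hk' hn
    rw [inv_inv] at h1
    have h2 : cm (US w n) (lam g) = ‖(lam g⁻¹ * US w n * lam g - US w n) (delta 1)‖ := by
      unfold cm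
      have e : US w n * lam g - lam g * US w n =
          lam g * (lam g⁻¹ * US w n * lam g - US w n) := by
        rw [mul_sub]
        congr 1
        calc US w n * lam g = (lam g * lam g⁻¹) * (US w n * lam g) := by rw [hgg, one_mul]
          _ = _ := by simp only [mul_assoc]
      rw [e]
      change ‖lam g ((lam g⁻¹ * US w n * lam g - US w n) (delta 1))‖ = _
      rw [norm_unitary (lam_unitary g)]
    rw [h2]
    exact Real.le_sqrt_of_sq_le h1

theorem cm_add (u x y : Op G) : cm u (x + y) ≤ cm u x + cm u y := by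
  unfold cm
  have e : u * (x + y) - (x + y) * u = (u * x - x * u) + (u * y - y * u) := by
    rw [mul_add, add_mul]; abel
  rw [e]
  exact norm_add_le _ _

theorem cm_smul (u x : Op G) (a : ℂ) : cm u (a • x) = ‖a‖ * cm u x := by
  unfold cm
  have e : u * (a • x) - (a • x) * u = a • (u * x - x * u) := by
    rw [mul_smul_comm, smul_mul_assoc, smul_sub]
  rw [e]
  exact norm_smul a ((u * x - x * u) (delta 1))

theorem cm_close {u x y : Op G} (hu : u ∈ LG G) (huu : u ∈ unitary (Op G)) (hx : x ∈ LG G)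
    (hy : y ∈ LG G) : cm u x ≤ cm u y + 2 * ‖(x - y) (delta 1)‖ := by
  have e : u * x - x * u = (u * y - y * u) + (u * (x - y) - (x - y) * u) := by
    rw [mul_sub, sub_mul]; abel
  unfold cm
  rw [e]
  refine (norm_add_le _ _).trans (add_le_add_right ?_ _)
  change ‖u ((x - y) (delta 1)) - ((x - y) * u) (delta 1)‖ ≤ _
  refine (norm_sub_le _ _).trans ?_
  rw [norm_unitary huu, norm_mul_unitary (sub_mem hx hy) hu huu]
  linarith

/-- **The sequence is central.** -/
theorem central (S : Sys w H N) {x : Op G} (hx : x ∈ LG G) :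
    Tendsto (fun n => cm (US w n) x) atTop (nhds 0) := by
  -- finite combinations
  have hfin : ∀ η ∈ Submodule.span ℂ (Set.range (delta : G → L2 G)),
      ∃ y : Op G, y ∈ LG G ∧ y (delta 1) = η ∧
        Tendsto (fun n => cm (US w n) y) atTop (nhds 0) := by
    intro η hη
    induction hη using Submodule.span_induction with
    | mem _ h =>
      obtain ⟨g, rfl⟩ := h
      exact ⟨lam g, lam_mem g, by rw [lam_delta, mul_one], cm_lam S g⟩
    | zero =>
      refine ⟨0, zero_mem _, rfl, ?_⟩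
      have : ∀ n, cm (US w n) (0 : Op G) = 0 := by
        intro n
        unfold cm
        simp
      simp only [this]
      exact tendsto_const_nhds
    | add a b _ _ ha hb =>
      obtain ⟨y, hy, hy1, hy2⟩ := ha
      obtain ⟨z, hz, hz1, hz2⟩ := hb
      refine ⟨y + z, add_mem hy hz, by rw [← hy1, ← hz1]; rfl, ?_⟩
      have h := hy2.add hz2
      rw [add_zero] at h
      exact squeeze_zero (fun n => norm_nonneg _) (fun n => cm_add _ _ _) h
    | smul a b _ hb =>
      obtain ⟨y, hy, hy1, hy2⟩ := hb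
      refine ⟨a • y, (LG G).toStarSubalgebra.smul_mem hy a, by rw [← hy1]; rfl, ?_⟩
      simp only [cm_smul]
      have h := hy2.const_mul ‖a‖
      rwa [mul_zero] at h
  rw [Metric.tendsto_atTop]
  intro ε hε
  have hcl : x (delta 1) ∈ closure
      ((Submodule.span ℂ (Set.range (delta : G → L2 G)) : Submodule ℂ (L2 G)) : Set (L2 G)) := by
    have : x (delta 1) ∈
        (Submodule.span ℂ (Set.range (delta : G → L2 G))).topologicalClosure := by
      rw [dense_delta]; trivial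
    exact this
  rw [Metric.mem_closure_iff] at hcl
  obtain ⟨η, hη, hd⟩ := hcl (ε / 4) (by linarith)
  obtain ⟨y, hy, hy1, hy2⟩ := hfin η hη
  rw [Metric.tendsto_atTop] at hy2
  obtain ⟨n0, hn0⟩ := hy2 (ε / 4) (by linarith)
  refine ⟨n0, fun n hn => ?_⟩
  have h1 := hn0 n hn
  rw [Real.dist_eq, sub_zero, abs_of_nonneg (cm_nonneg _ _)] at h1
  rw [Real.dist_eq, sub_zero, abs_of_nonneg (cm_nonneg _ _)]
  have h2 := cm_close (US_mem w n) (US_unitary w n) hx hy
  have h3 : ‖(x - y) (delta 1)‖ < ε / 4 := by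
    change ‖x (delta 1) - y (delta 1)‖ < _
    rw [hy1, ← dist_eq_norm]
    exact hd
  linarith

end

end Pool.Agent.Q175.CG
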